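import Mathlib
import Pool.Agent.TH41.KL.Stm

/-!
# Project SL2, part A (helper167, MP_b5f63d_co): the exact exponential rate of the linear programming
bound for spherical codes.  The functional side: pairings with positive definite functions on a
thin shell, exponentials, extension of functions, the linear program.

Every `S_...` is a `def ... : Prop` to be proved; the docstring contains the complete proof.
`PD n g` (file `TH41/KL/Stm.lean`) says that `g (⟨x, y⟩)` is a positive definite kernel on the unit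
sphere, `cosA u w = ⟨u, w⟩ / (‖u‖ ‖w‖)`.
-/

set_option autoImplicit false

open MeasureTheory Filter Topology

namespace Pool.Agent.Q167.SL

open Pool.Agent.TH41.KL (PD cosA)

/-- the open shell `r < ‖x‖ < 1` of `ℝ^n` -/
def shell (n : ℕ) (r : ℝ) : Set (EuclideanSpace ℝ (Fin n)) := {x | r < ‖x‖ ∧ ‖x‖ < 1}

/-- its volume -/
noncomputable def vs (n : ℕ) (r : ℝ) : ℝ := (volume (shell n r)).toReal

/-- the pairing of `g` (a function of the cosine of the angle) with `u` (a function of the inner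
product) on the shell -/
noncomputable def pr (n : ℕ) (r : ℝ) (g : ℝ → ℝ) (u : ℝ → ℂ) : ℂ :=
  ∫ x in shell n r, ∫ y in shell n r, ((g (cosA x y) : ℝ) : ℂ) * u (inner ℝ x y)

/-- `u` has size at most `D` in the dual norm -/
def Bd (n : ℕ) (r D : ℝ) (u : ℝ → ℂ) : Prop :=
  ∀ g : ℝ → ℝ, ContinuousOn g (Set.Icc (-1) 1) → PD n g → ‖pr n r g u‖ ≤ D * g 1 * vs n r ^ 2

/-- A-PSD.  **Positive definiteness on the shell, complex weights.**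

Proof.  `KL.QF.qf : S_q` (module `Pool.Agent.TH41.KL.QF`) says: for continuous bounded real `φ` on
`ℝ^n`, `0 ≤ ∫∫ kk g u w (φ u φ w)`, where `kk g u w = g (cosA u w)` on the open unit ball squared
and `0` outside.  Put `θ_j(x) = min 1 (j * max 0 (‖x‖ - r))`, continuous, bounded by 1, tends to the
indicator of `r < ‖x‖`.  Apply it with `φ = θ_j a` for a continuous bounded real function `a` and
let `j → ∞` (dominated convergence on the ball squared; `g` is bounded on `[-1, 1]` and `cosA` has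
values in `[-1,1]`): `0 ≤ ∫_shell ∫_shell g(cosA x y) a(x) a(y)`.  For complex `F = a + i b` the
real part of `g(cosA x y) F(x) conj(F(y))` is `g(cosA x y)(a(x)a(y) + b(x)b(y))`. -/
def S_psd : Prop := ∀ (n : ℕ) (g : ℝ → ℝ) (r : ℝ), 0 < n → ContinuousOn g (Set.Icc (-1) 1) →
  PD n g → 0 ≤ r → ∀ F : EuclideanSpace ℝ (Fin n) → ℂ, Continuous F → (∃ M : ℝ, ∀ x, ‖F x‖ ≤ M) →
    0 ≤ (∫ x in shell n r, ∫ y in shell n r,
      ((g (cosA x y) : ℝ) : ℂ) * F x * (starRingEnd ℂ) (F y)).re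

/-- A-EXP.  **The dual size of the exponentials.**  This is the trace duality `|tr(K U)| ≤ ‖U‖ tr K`
for the positive kernel `K = g(cosA x y)` and the operator `U` with kernel `exp(n σ ⟨x,y⟩)`, written
with Gaussians only.

Proof.  Facts about `g`: for unit vectors `x, y`, `|g⟨x,y⟩| ≤ g 1` (use `PD` with the two points
`x, y` and `a = (1, ±1)`) and `0 ≤ g 1` (one point), so `|g(cosA x y)| ≤ g 1` for nonzero `x, y`.

(1) `Re σ > 0`.  Put `b = 1/(2 n σ)`, `c₀ = Re b > 0`.  `GaussianFourier.integral_cexp_neg_mul_sq_norm_add`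
(with `c = i`, `w = z`) gives, for every `z ∈ ℝ^n`,
  `∫ ζ, exp(-b ‖ζ‖² + i ⟨z,ζ⟩) = (π/b)^(n/2) exp(-n σ ‖z‖²/2)`,   `π/b = 2 π n σ`.
Since `n σ ⟨x,y⟩ = nσ‖x‖²/2 + nσ‖y‖²/2 - nσ‖x-y‖²/2`,
  `(2πnσ)^(n/2) pr n r g (exp(nσ·)) = ∫ ζ, exp(-b‖ζ‖²) B_ζ`,
  `B_ζ = ∫_shell ∫_shell g(cosA x y) F_ζ(x) conj(G_ζ(y))`, `F_ζ(x) = exp(nσ‖x‖²/2 + i⟨x,ζ⟩)`,
  `G_ζ(y) = exp(n conj(σ) ‖y‖²/2 + i⟨y,ζ⟩)`
(Fubini: everything is bounded on the shell and `exp(-b‖ζ‖²)` is integrable).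
By A-PSD for `F_ζ ± e^{iθ} G_ζ` (multiply by a cutoff or note that only the values on the shell matter,
`F_ζ` is continuous and may be replaced by a bounded continuous function): `|B_ζ| ≤ (Q(F_ζ) + Q(G_ζ))/2`
where `Q(F) = Re ∫∫ g F(x) conj F(y) ≥ 0`.  Then
  `∫ ζ, exp(-c₀‖ζ‖²) Q(F_ζ) = ∫_shell∫_shell g(cosA x y) a(x) conj(a(y)) (π/c₀)^(n/2) exp(-‖x-y‖²/(4c₀))`,
`a(x) = exp(nσ‖x‖²/2)`, `|a| ≤ exp(n Re σ /2)` on the shell, and this is at most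
`g(1) exp(n Re σ) (π/c₀)^(n/2) ∫_{x∈shell} ∫_{z∈ℝ^n} exp(-‖z‖²/(4c₀)) = g(1) exp(n Re σ) (2π)^n vs n r`
because `(π/c₀)^(n/2) (4πc₀)^(n/2) = (2π)^n`.  The same for `G_ζ`.  Divide by
`|2πnσ|^(n/2)`: `(2π)^n (2πn|σ|)^(-n/2) = (2π/(n|σ|))^(n/2)`.
(2) `Re σ = 0`: both sides are continuous in `σ ≠ 0` (dominated convergence); take the limit of
`σ + ε`, `ε → 0+`.
(3) `Re σ < 0`: put `σ' = -σ`; `nσ⟨x,y⟩ = nσ'‖x‖²/2 + nσ'‖y‖²/2 - nσ'‖x+y‖²/2`, so the same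
computation works with `F_ζ(x) = exp(nσ'‖x‖²/2 + i⟨x,ζ⟩)`, `G_ζ(y) = exp(n conj(σ')‖y‖²/2 - i⟨y,ζ⟩)`. -/
def S_exp : Prop := ∀ (n : ℕ) (r : ℝ), 0 < n → 0 ≤ r → r < 1 → ∀ σ : ℂ, σ ≠ 0 →
  ∀ g : ℝ → ℝ, ContinuousOn g (Set.Icc (-1) 1) → PD n g →
    ‖pr n r g (fun τ => Complex.exp (n * σ * τ))‖ ≤
      (2 * Real.pi / (n * ‖σ‖)) ^ ((n : ℝ) / 2) * Real.exp (n * |σ.re|) * g 1 * vs n r

/-- A-VOL.  **Volume of the shell.**
Proof.  The shell is the open unit ball minus the closed ball of radius `r`: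
`vs n r = (1 - r^n) vol(B)`, `vol(B) = √π^n / Γ(n/2+1)` (`EuclideanSpace.volume_ball`).  So the left
side is `(2/n)^(n/2) Γ(n/2+1)/(1 - r^n)`; with `Γ(n/2+1) ≤ C √n (n/(2e))^(n/2)` (Stirling; crude bounds
`Γ(x+1) ≤ C (x+1) (x/e)^x` suffice; the library has `VOL` facts in `TH41/LP/VOL.lean`) it is at most
`C √n e^(-n/2)/(1-r)`.  Also the volume is positive. -/
def S_vol : Prop := ∀ r ε : ℝ, 0 ≤ r → r < 1 → 0 < ε → ∃ n₀ : ℕ, ∀ n : ℕ, n₀ ≤ n →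
  0 < vs n r ∧ (2 * Real.pi / n) ^ ((n : ℝ) / 2) / vs n r ≤ Real.exp (n * (-(1 / 2) + ε))

/-- A-MEAN.  **The mean on the shell.**
Proof.  `g(cosA x y)` does not change if `x` or `y` is multiplied by a positive number.  With
`I(a,b) = ∫_{‖x‖<a} ∫_{‖y‖<b} g(cosA x y)` the substitutions `x → a x`, `y → b y`
(`MeasureTheory.Measure.setIntegral_comp_smul` or `integral_comp_smul`) give `I(a,b) = a^n b^n I(1,1)`.
The shell is ball(1) minus closed ball(r) (spheres have measure zero), so the integral over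
shell × shell is `I(1,1) - I(r,1) - I(1,r) + I(r,r) = (1-r^n)² I(1,1)` and `vs n r = (1-r^n) vol(B)`. -/
def S_mean : Prop := ∀ (n : ℕ) (r : ℝ) (g : ℝ → ℝ), 0 < n → 0 ≤ r → r < 1 →
  ContinuousOn g (Set.Icc (-1) 1) →
  pr n r g (fun _ => 1) = (((∫ u in Metric.ball (0 : EuclideanSpace ℝ (Fin n)) 1,
    ∫ w in Metric.ball (0 : EuclideanSpace ℝ (Fin n)) 1, g (cosA u w)) /
      (volume (Metric.ball (0 : EuclideanSpace ℝ (Fin n)) 1)).toReal ^ 2 * vs n r ^ 2 : ℝ) : ℂ)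

/-- A-LP.  **The dual function bounds the linear program.**
Proof.  `pr` is additive: `pr n r g 1 = pr n r g v + pr n r g (1 - v)` (all integrands are bounded and
measurable on shell × shell, where `|⟨x,y⟩| < 1`).  In `pr n r g (1 - v)` the integrand
`g(cosA x y) (1 - v⟨x,y⟩)` is `≤ 0`: it is `0` if `⟨x,y⟩ ≥ s r²`; if `⟨x,y⟩ < s r²`, then `1 - v ≥ 0`, and
`cosA x y ≤ s` (if `⟨x,y⟩ ≤ 0` clear since `s > 0`, otherwise `cosA x y = ⟨x,y⟩/(‖x‖‖y‖) < s r²/r² = s`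
as `‖x‖‖y‖ > r²`), also `cosA ≥ -1`, so `g(cosA x y) ≤ 0`.  Hence
`mean * vs² = Re pr n r g 1 ≤ Re pr n r g v ≤ D g(1) vs²` (A-MEAN), divide by `vs² > 0` (the shell is
open and not empty). -/
def S_lp : Prop := ∀ (n : ℕ) (r s D : ℝ) (v : ℝ → ℝ), 0 < n → 0 < r → r < 1 → 0 < s → s < 1 →
  Continuous v → (∀ τ : ℝ, s * r ^ 2 ≤ τ → τ ≤ 1 → v τ = 1) → (∀ τ : ℝ, -1 ≤ τ → τ ≤ 1 → v τ ≤ 1) →
  Bd n r D (fun τ => ((v τ : ℝ) : ℂ)) → ∀ g : ℝ → ℝ, ContinuousOn g (Set.Icc (-1) 1) → PD n g →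
  (∀ t : ℝ, -1 ≤ t → t ≤ s → g t ≤ 0) →
  (∫ u in Metric.ball (0 : EuclideanSpace ℝ (Fin n)) 1,
    ∫ w in Metric.ball (0 : EuclideanSpace ℝ (Fin n)) 1, g (cosA u w)) /
      (volume (Metric.ball (0 : EuclideanSpace ℝ (Fin n)) 1)).toReal ^ 2 ≤ D * g 1

/-- A-FOUR.  **Absolutely convergent Fourier series of a `C¹` function on `[a, 1]`.**
Proof.  `ℓ = 1 - a ∈ (0, 2]`.  Let `ψ` be the even `2ℓ`-periodic function with `ψ(x) = φ(a + x)` for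
`0 ≤ x ≤ ℓ`.  It is continuous, and it is an integral of the bounded function
`ψ'(x) = sgn(x) φd(a + |x|)`, `|x| < ℓ`.  Its Fourier coefficients `c_j = (1/2ℓ)∫_{-ℓ}^{ℓ} ψ e^{-iπjx/ℓ}`
satisfy `c_j = (ℓ/(iπj)) d_j`, `j ≠ 0`, `d_j` the coefficients of `ψ'`, `∑ |d_j|² ≤ B²` (Bessel), so
`∑_{j≠0} |c_j| ≤ (ℓ/π)(∑_{j≠0} 1/j²)^{1/2} B = (ℓ/√3) B ≤ 2B` and `|c_0| ≤ B`.  A continuous function
with summable Fourier coefficients is the sum of its series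
(`has_pointwise_sum_fourier_series_of_summable`).  So
`φ(τ) = ψ(τ - a) = ∑ c_j e^{-iπja/ℓ} e^{iπjτ/ℓ}`; take `d_j := c_j e^{-iπja/ℓ}`. -/
def S_four : Prop := ∀ (a B : ℝ) (φ φd : ℝ → ℂ), -1 ≤ a → a < 1 →
  (∀ τ ∈ Set.Icc a 1, HasDerivWithinAt φ (φd τ) (Set.Icc a 1) τ) → ContinuousOn φd (Set.Icc a 1) →
  (∀ τ ∈ Set.Icc a 1, ‖φ τ‖ ≤ B ∧ ‖φd τ‖ ≤ B) →
  ∃ c : ℤ → ℂ, Summable (fun j => ‖c j‖) ∧ ∑' j, ‖c j‖ ≤ 3 * B ∧
    ∀ τ ∈ Set.Icc a 1, HasSum (fun j => c j * Complex.exp (((Real.pi * j / (1 - a) * τ : ℝ) : ℂ) *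
      Complex.I)) (φ τ)

/-- a family of approximate extensions of the exponentials from `[a, 1]` to `[-1, 1]`: error `θ` on
`[a, 1]` with the first derivative, size `M`, dual size `D` -/
def Fam (n : ℕ) (r a θ M D : ℝ) : Prop := ∀ lam : ℝ, ∃ u ud : ℝ → ℂ,
  (∀ τ, HasDerivAt u (ud τ) τ) ∧ Continuous ud ∧
  (∀ τ ∈ Set.Icc a 1, ‖u τ - Complex.exp (((lam * τ : ℝ) : ℂ) * Complex.I)‖ ≤ θ ∧
    ‖ud τ - lam * Complex.I * Complex.exp (((lam * τ : ℝ) : ℂ) * Complex.I)‖ ≤ θ) ∧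
  (∀ τ ∈ Set.Icc (-1 : ℝ) 1, ‖u τ‖ ≤ M) ∧ Bd n r D u

/-- A-EXT.  **Exact extension of `C¹` functions with small dual size.**
Proof.  (You may assume A-FOUR.)  Choose for `j ∈ ℤ` the member `u_j, ud_j` of the family with
`lam = πj/(1-a)`, and put `e_j = exp(i lam_j τ) - u_j`, so `|e_j|, |e_j'| ≤ θ` on `[a,1]`.
Given `(φ, φd)` with bound `B` let `c_j` be as in A-FOUR, `w⁰ = ∑ c_j u_j` (converges absolutely and
uniformly on `[-1,1]`: `|w⁰| ≤ 3BM`; dual size `≤ 3BD`, by dominated convergence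
`pr(g, ∑ c_j u_j) = ∑ c_j pr(g, u_j)`), and `φ¹ = φ - w⁰ = ∑ c_j e_j` on `[a,1]`, which is `C¹` there with
`|φ¹|, |φ¹'| ≤ 3Bθ ≤ B/2` (termwise differentiation; extend `φ¹` by any values outside).  Iterate:
`φ^{i+1} = φ^i - w^i` with bounds `B/2^i`, `|w^i| ≤ 3BM/2^i`, dual size `≤ 3BD/2^i`.  The sum
`w = ∑_i w^i` converges uniformly on `[-1,1]`, equals `φ` on `[a,1]`, `|w| ≤ 6BM`, dual size `≤ 6BD`.
Finally replace `w` by `w ∘ clamp` (`clamp τ = max (-1) (min 1 τ)`), this changes nothing on `[-1,1]`, and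
`pr` only sees `|τ| < 1`, as `|⟨x,y⟩| ≤ ‖x‖‖y‖ < 1` on the shell.  `w ∘ clamp` is continuous. -/
def S_ext : Prop := ∀ (n : ℕ) (r a θ M D : ℝ), 0 < n → 0 ≤ r → r < 1 → -1 ≤ a → a < 1 →
  0 ≤ θ → 0 ≤ M → 0 ≤ D → 6 * θ ≤ 1 → Fam n r a θ M D →
  ∀ (B : ℝ) (φ φd : ℝ → ℂ), 0 ≤ B →
  (∀ τ ∈ Set.Icc a 1, HasDerivWithinAt φ (φd τ) (Set.Icc a 1) τ) → ContinuousOn φd (Set.Icc a 1) →
  (∀ τ ∈ Set.Icc a 1, ‖φ τ‖ ≤ B ∧ ‖φd τ‖ ≤ B) →
  ∃ w : ℝ → ℂ, Continuous w ∧ (∀ τ ∈ Set.Icc a 1, w τ = φ τ) ∧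
    (∀ τ ∈ Set.Icc (-1 : ℝ) 1, ‖w τ‖ ≤ 6 * B * M) ∧ Bd n r (6 * B * D) w

end Pool.Agent.Q167.SL
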