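import Mathlib
import Pool.Agent.TH41.BL.Stm4
import Pool.Agent.Q167.SL.StmA

/-!
# Project SL2, part B (helper167, MP_b5f63d_co): test functions from a holomorphic family of kernels
on a strip.

The library `TH41/BL` has the estimates of the test functions of one segment, uniformly in the
kernel: `Pool.Agent.TH41.BL.k4_left : S4_left`, `k4_trans : S4_trans` (module
`Pool.Agent.TH41.BL.ASME`; they are `LE4f.left4 RECf.rect`, `TR4f.trans4 RECf.rect`, modules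
`BL.LE4`, `BL.TR4`, `BL.REC`), the structure `QBG` of the kernels and `vS`, `Kf` (file `BL/Stm4.lean`,
`BL/Stm2.lean`), and the contour shift `S_shift` of `BL/Stm.lean` (proved in `BL/SH*.lean`, see `BL/ASM*`).
-/

set_option autoImplicit false

open MeasureTheory Filter Topology

namespace Pool.Agent.Q167.SL

open Pool.Agent.TH41.BL (QBG vS Kf S4_left S4_trans)

/-- B-QBA.  **The bounds `QBG` for `exp (n L)`, uniformly in `L`.**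

Proof.  `κ := min (κ₀/4) (π/16)`; by Cauchy's estimates (discs of radius `κ₀/2` around the points of
`|Re s| ≤ κ, |Im s| ≤ T`, they lie in the region where `‖L'‖ ≤ M`) the derivatives `L'', L'''` are bounded by
`M' = 16 M (1 + 1/κ₀)^2` on `|Re s| ≤ κ, |Im s| ≤ T`, and `C := 4 (M + M' + 1)` works.  Symmetries:
`L(-s) = -L(s)`, `L(conj s) = conj L(s)`, so `L'` is even, `L'(conj s) = conj L'(s)`; `Re L(it) = 0`.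
* mz: `L 0 = 0`.  m0: `Re L(it) = 0`.  m1: `L` is real on the real line.
* m2: `Re L(it) = 0` and `|∂_σ Re L| ≤ M`.
* m3, m4: `f(σ) = Re L(σ+it) - Re L(σ)`, `f(0) = 0`, `f'(σ) = Re (L'(σ+it) - L'(σ))`; as `L'` and `L''` are
  real at real `σ`, `L'(σ+it) - L'(σ) = i t L''(σ) + O(M' t²/2)` has real part `O(M' t²/2)`.
* m5: `Im L(σ+it) = ∫_0^t Re L'(σ+iv) dv = t Re L'(σ) + O(M' |t|³/6)`; `exp(nL) = |exp(nL)| exp(i n Im L)`.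
* m6: `Re L(σ+it) = σ Re L'(it) + O(M' σ²/2)`.
* m7: `L` is real and odd on the real line, so `L(σ) = L'(0)σ + O(M'|σ|³/6)`.
* m8: `L'` is even, `|L'(σ) - L'(0)| ≤ M'σ²/2`.  m9, m10 clear.  m11: `|L''| ≤ M'`.  m12 clear. -/
def S_qba : Prop := ∀ M κ₀ T : ℝ, 0 < M → 0 < κ₀ → 0 < T → ∃ C κ : ℝ, 0 < C ∧ 0 < κ ∧ κ < κ₀ ∧
  κ ≤ Real.pi / 16 ∧ ∀ L : ℂ → ℂ, (∀ s : ℂ, |s.re| < κ₀ → DifferentiableAt ℂ L s) →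
  (∀ s : ℂ, |s.re| < κ₀ → |s.im| < T + κ₀ → ‖deriv L s‖ ≤ M) → (∀ s : ℂ, L (-s) = -L s) →
  (∀ s : ℂ, L ((starRingEnd ℂ) s) = (starRingEnd ℂ) (L s)) →
  (∀ t : ℝ, (L (t * Complex.I)).re = 0) →
  ∀ n : ℕ, 0 < n → QBG (fun s => Complex.exp (n * L s)) (fun x => (deriv L x).re)
    (fun t => (deriv L (t * Complex.I)).re) (deriv L 0).re T C κ n

/-- **Strip kernels.**  `exp (n (σ(s) τ + P(s)))`, `0 ≤ Re s < η`, has modulus one on `Re s = 0` for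
all real `τ`, and its dual size is `exp (-n R)` near `Re s = η`. -/
structure SKer (η R : ℝ) (σ P t : ℂ → ℂ) : Prop where
  eta_pos : 0 < η
  ds : ∀ s : ℂ, |s.re| < η → DifferentiableAt ℂ σ s
  dt : ∀ s : ℂ, |s.re| < η → DifferentiableAt ℂ t s
  dP : ∀ s : ℂ, |s.re| < η → HasDerivAt P (-(deriv σ s * t s)) s
  s_odd : ∀ s : ℂ, σ (-s) = -σ s
  P_odd : ∀ s : ℂ, P (-s) = -P s
  s_conj : ∀ s : ℂ, σ ((starRingEnd ℂ) s) = (starRingEnd ℂ) (σ s)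
  P_conj : ∀ s : ℂ, P ((starRingEnd ℂ) s) = (starRingEnd ℂ) (P s)
  t_conj : ∀ s : ℂ, t ((starRingEnd ℂ) s) = (starRingEnd ℂ) (t s)
  t_even : ∀ s : ℂ, t (-s) = t s
  s_im : ∀ φ : ℝ, (σ (φ * Complex.I)).re = 0
  P_im : ∀ φ : ℝ, (P (φ * Complex.I)).re = 0
  bd : ∀ η' : ℝ, 0 < η' → η' < η → ∃ M : ℝ, ∀ s : ℂ, |s.re| ≤ η' → ‖σ s‖ ≤ M ∧ |(P s).re| ≤ M
  dual : ∀ ε : ℝ, 0 < ε → ∃ δ₀ : ℝ, 0 < δ₀ ∧ δ₀ < η ∧ ∀ δ : ℝ, 0 < δ → δ ≤ δ₀ → ∀ φ : ℝ,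
    σ ((η - δ : ℝ) + φ * Complex.I) ≠ 0 ∧
    |(σ ((η - δ : ℝ) + φ * Complex.I)).re| + (P ((η - δ : ℝ) + φ * Complex.I)).re -
      1 / 2 * Real.log ‖σ ((η - δ : ℝ) + φ * Complex.I)‖ ≤ 1 / 2 - R + ε

/-- A-EXPK (from A-EXP and A-VOL, done by helper167): the dual size of the exponentials -/
def S_expk : Prop := ∀ r ε : ℝ, 0 ≤ r → r < 1 → 0 < ε → ∃ n₀ : ℕ, ∀ n : ℕ, n₀ ≤ n →
  ∀ σ : ℂ, σ ≠ 0 → Bd n r (Real.exp (n * (|σ.re| - 1 / 2 * Real.log ‖σ‖ - 1 / 2 + ε)))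
    (fun τ => Complex.exp (n * σ * τ))

/-- the test function of a strip kernel on the line `Re s = c`, with the pole at `i φ` and the
threshold `κ` -/
noncomputable def tf (σ P : ℂ → ℂ) (n : ℕ) (ε κ c φ τ : ℝ) : ℂ :=
  (∫ v : ℝ, Complex.exp (n * (σ (c + v * Complex.I) * τ + P (c + v * Complex.I))) *
    Kf n ε κ (c + (v - φ) * Complex.I)) / (2 * Real.pi)

/-- B-SHIFT.  **The test function does not depend on the line.**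
Proof.  `BL.S_shift` (in `BL/Stm.lean`, a proved statement; or directly Cauchy's theorem on rectangles)
for `Y(s) = exp(n(σ(s+iφ)τ + P(s+iφ))) exp(nεs²)`, `ρ = nκ`: on `|Re s| ≤ c'` with `c < c' < η` one has
`‖Y s‖ ≤ exp(2nM(c')(1+|τ|)) exp(nεc'^2) exp(-nε (Im s)²)` by `SKer.bd`.  Substitute `v = t + φ`.  The integrand
is integrable by the same bound. -/
def S_bsh : Prop := ∀ (η R : ℝ) (σ P t : ℂ → ℂ), SKer η R σ P t → ∀ (n : ℕ) (ε κ φ τ : ℝ), 0 < n →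
  0 < ε → (∀ c : ℝ, 0 < c → c < η → Integrable (fun v : ℝ =>
    Complex.exp (n * (σ (c + v * Complex.I) * τ + P (c + v * Complex.I))) *
      Kf n ε κ (c + (v - φ) * Complex.I))) ∧
  ∀ c c' : ℝ, 0 < c → c < η → 0 < c' → c' < η → tf σ P n ε κ c φ τ = tf σ P n ε κ c' φ τ

/-- B-DUAL.  **The dual size of the test function.**
Proof.  Take `ε' = ε₀/4`, `δ` from `SKer.dual` for `ε'`, with `δ ≤ η/2`; `B = η - δ`.  On the line `Re s = B`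
(B-SHIFT) the function `tf` is `(1/2π) ∫ exp(nσ(s)τ) exp(nP(s)) Kf dv`, so by Fubini (`g` bounded,
`|exp(nσ(s)τ)| ≤ exp(nM)` for `|τ| ≤ 1`, integrable in `v` by B-SHIFT)
`pr n r g (tf) = (1/2π) ∫ pr n r g (exp(nσ(s)·)) exp(nP(s)) Kf dv` and by A-EXPK with `ε'`
  `‖pr n r g tf‖ ≤ (1/2π) g(1) vs² ∫ exp(n(|Re σ| - ½ log|σ| - ½ + ε' + Re P)) |Kf| dv`
  `≤ g(1) vs² exp(n(-R + 2ε')) ∫ |Kf| dv`, and
`|Kf n ε κ (B + i(v-φ))| ≤ exp(nεB² + n|κ|B - nε(v-φ)²)/B`, `∫ ≤ exp(n(εη² + |κ|η)) (2/η) √(π/(nε))`.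
For `n` large the factor `(2/η)√(π/(nε))` is at most `exp(nε')`. -/
def S_bdual : Prop := S_expk → S_bsh → ∀ (η R : ℝ) (σ P t : ℂ → ℂ), SKer η R σ P t →
  ∀ ε ε₀ r : ℝ, 0 < ε → 0 < ε₀ → 0 ≤ r → r < 1 → ∃ n₀ : ℕ, ∀ n : ℕ, n₀ ≤ n →
  ∀ κ φ c : ℝ, 0 < c → c < η →
    Bd n r (Real.exp (n * (-R + ε₀ + ε * η ^ 2 + |κ| * η))) (tf σ P n ε κ c φ)

/-- B-SEG.  **The test function is the test function of a segment, and its derivatives.**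
(1) For small `c` the part of the line outside `|v| ≤ T` is exponentially small if `|φ| ≤ T - ϑ`.
(2) crude bounds of the derivatives with respect to `τ`, with any small exponential rate.
(3) `tf` is smooth in `τ`.
Proof.  Let `M` be a bound for `‖σ‖`, `|Re P|` on `|Re s| ≤ η/2` and let `M₁` be a bound for `‖deriv σ‖` and
`‖deriv P‖` on `|Re s| ≤ η/4` (Cauchy, for `P` use `|Re P| ≤ M`: Borel-Caratheodory, or `deriv P` is bounded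
on `|Re s| ≤ η/4` by `4·sup|Re P|·(1/η)`-type Schwarz estimate; alternatively the derivative of the
harmonic function `Re P`); as `Re σ(it) = Re P(it) = 0`: `Re(σ(s)τ + P(s)) ≤ 2M₁|Re s|` for `|τ| ≤ 1`,
`|Re s| ≤ η/4`.  On the line `Re s = c ≤ η/4`:
`|exp(nL) Kf| ≤ exp(n(2M₁c + εc² + |κ|c)) exp(-nε(v-φ)²)/max(c, |v-φ|)`.
(1) for `|v| > T`, `|v-φ| ≥ ϑ`: integral `≤ exp(n(2M₁c+εc²+|κ|c) - nεϑ²/2) (1/ϑ) √(2π/(nε))`, take `c` with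
`2M₁c+εc²+c ≤ εϑ²/4`, `ε₁ = εϑ²/8` (for `|κ| ≤ 1`).
(2) the `j`-th derivative is `(1/2π)∫ (nσ)^j exp(nL) Kf`, `≤ (nM)^j exp(n(2M₁c+εc²+|κ|c)) √(π/(nε))/c`; choose
`c` with `2M₁c+εc²+c ≤ ε₂/2` (the value of `tf` does not depend on `c`).
(3) differentiation under the integral sign. -/
def S_bseg : Prop := S_bsh → ∀ (η R : ℝ) (σ P t : ℂ → ℂ), SKer η R σ P t →
  ∀ T ε ϑ : ℝ, 0 < T → 0 < ε → 0 < ϑ →
  (∃ c₀ : ℝ, 0 < c₀ ∧ c₀ < η ∧ ∀ c : ℝ, 0 < c → c ≤ c₀ → ∃ ε₁ : ℝ, 0 < ε₁ ∧ ∃ n₀ : ℕ,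
    ∀ n : ℕ, n₀ ≤ n → ∀ κ φ τ : ℝ, |κ| ≤ 1 → |φ| ≤ T - ϑ → |τ| ≤ 1 →
    ‖tf σ P n ε κ c φ τ -
      vS (fun s => Complex.exp (n * (σ s * τ + P s))) T n ε κ c φ‖ ≤ Real.exp (-ε₁ * n)) ∧
  (∀ ε₂ : ℝ, 0 < ε₂ → ∃ n₀ : ℕ, ∀ n : ℕ, n₀ ≤ n → ∀ κ φ c : ℝ, |κ| ≤ 1 → 0 < c → c < η →
    ∃ u₁ u₂ : ℝ → ℂ, (∀ τ, HasDerivAt (tf σ P n ε κ c φ) (u₁ τ) τ) ∧ (∀ τ, HasDerivAt u₁ (u₂ τ) τ) ∧
      Continuous u₂ ∧ ∀ τ : ℝ, |τ| ≤ 1 → ‖tf σ P n ε κ c φ τ‖ ≤ Real.exp (ε₂ * n) ∧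
        ‖u₁ τ‖ ≤ Real.exp (ε₂ * n) ∧ ‖u₂ τ‖ ≤ Real.exp (ε₂ * n))

/-- B-LAN.  **Landau's inequality.**  If `f` is twice differentiable on `[a, b]`, `|f| ≤ A` and `|f''| ≤ A₂`,
then `|f'| ≤ 2A/h + h A₂` for every `0 < h ≤ (b - a)/2`.
Proof.  For `τ ≤ (a+b)/2` compare with `τ + h`, otherwise with `τ - h`: by the mean value inequality
`|f(τ ± h) - f(τ) ∓ h f'(τ)| ≤ h² A₂`, so `h |f'(τ)| ≤ 2A + h² A₂`. -/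
def S_blan : Prop := ∀ (a b A A₂ h : ℝ) (f f₁ f₂ : ℝ → ℂ), 0 < h → h ≤ (b - a) / 2 →
  (∀ τ, HasDerivAt f (f₁ τ) τ) → (∀ τ, HasDerivAt f₁ (f₂ τ) τ) →
  (∀ τ ∈ Set.Icc a b, ‖f τ‖ ≤ A) → (∀ τ ∈ Set.Icc a b, ‖f₂ τ‖ ≤ A₂) →
  ∀ τ ∈ Set.Icc a b, ‖f₁ τ‖ ≤ 2 * A / h + h * A₂

/-- B-TA.  **Approximate extension of the exponentials with frequency near `n Im σ(iφ₀)`.**

The theorem may take as hypotheses `S_qba`, `S_expk`, `S_bsh`, `S_bdual`, `S_bseg`, `S_blan` (`S4_left`,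
`S4_trans` are proved).
Proof.  `σ'`, `t` are real on the imaginary axis (from `s_odd`, `s_conj`, `t_even`, `t_conj`).  With `L_τ(s) = σ(s)τ + P(s)`: `L_τ'(s) = σ'(s)(τ - t(s))`,
`Re L_τ'(iφ) = σ'(iφ)(τ - t(iφ))`.  At `φ = φ₀` this is `≥ σ'(iφ₀)(a - t(iφ₀)) > 0` for all `τ ∈ [a,1]`, so by
continuity and compactness there are `ρ ∈ (0,1)`, `m > 0` with `Re L_τ'(iφ) ≥ m` for `|φ-φ₀| < ρ`, `τ ∈ [a,1]`.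
Let `T = |φ₀| + 3`, `ϑ = 1`; `L_τ` satisfies B-QBA for `|τ| ≤ 1` with `κ₀ = η/2` and
`M = sup |σ'|(1+|t|)` on `|Re s| ≤ η/2, |Im s| ≤ T + η` (plus 1).  Let `ε_g > 0` with `ε_g η² ≤ ε/2`, `ε_g ≤ 1`.
`S4_left` with threshold `0`, `Δ = m`, `ε_g`, `ϑ = 1`: for small fixed `c`, `n ≥ n₀`, `|φ - φ₀| < ρ`,
`‖vS(exp(nL_τ)) - exp(nL_τ(iφ))‖ ≤ exp(-ε₁' n)` for `τ ∈ [a,1]`.  With B-SEG (1):
`‖tf σ P n ε_g 0 c φ τ - exp(n(σ(iφ)τ + P(iφ)))‖ ≤ 2exp(-ε₁'' n)`.  Put `u τ = exp(-nP(iφ)) tf τ`,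
`|exp(-nP(iφ))| = 1`, and `exp(nσ(iφ)τ) = exp(i n Im σ(iφ) τ)`.  This gives the first bound, B-SEG (2) the size
bound, B-DUAL (with `ε₀ = ε/2`) the dual size.  For the derivative apply B-LAN to
`f = u - exp(i n Im σ(iφ) τ)` on `[a,1]` with `A = 2exp(-ε₁''n)`, `A₂ = exp(ε₂'n)(1 + (nM)²)`, `ε₂' = ε₁''/8`,
`h = exp(-ε₁''n/2)`. -/
def S_ta : Prop := ∀ (η R : ℝ) (σ P t : ℂ → ℂ), SKer η R σ P t → ∀ φ₀ a : ℝ,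
  0 < (deriv σ (φ₀ * Complex.I)).re → (t (φ₀ * Complex.I)).re < a → -1 ≤ a → a < 1 → ∀ ε : ℝ, 0 < ε →
  ∃ ρ ε₁ : ℝ, 0 < ρ ∧ 0 < ε₁ ∧ ∀ ε₂ r : ℝ, 0 < ε₂ → 0 ≤ r → r < 1 → ∃ n₀ : ℕ, ∀ n : ℕ, n₀ ≤ n →
  ∀ φ : ℝ, |φ - φ₀| < ρ → ∃ u ud : ℝ → ℂ,
    (∀ τ, HasDerivAt u (ud τ) τ) ∧ Continuous ud ∧
    (∀ τ ∈ Set.Icc a 1,
      ‖u τ - Complex.exp (((n * (σ (φ * Complex.I)).im * τ : ℝ) : ℂ) * Complex.I)‖ ≤
        Real.exp (-ε₁ * n) ∧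
      ‖ud τ - ((n * (σ (φ * Complex.I)).im : ℝ) : ℂ) * Complex.I *
        Complex.exp (((n * (σ (φ * Complex.I)).im * τ : ℝ) : ℂ) * Complex.I)‖ ≤
        Real.exp (-ε₁ * n)) ∧
    (∀ τ ∈ Set.Icc (-1 : ℝ) 1, ‖u τ‖ ≤ Real.exp (ε₂ * n)) ∧ Bd n r (Real.exp (-(n * (R - ε)))) u

/-- B-TV.  **The test function with the pole at `0`: one-sided bounds.**
`b(τ) = d (τ - t₀)`, `d = σ'(0) > 0`, `t₀ = t(0)`.
The same hypotheses are allowed as in B-TA.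
Proof.  As B-TA, with `φ = 0` and threshold `κ ∈ (0,1]`.  `S4_trans` (with `ε_g`, `η := κ`) gives `Δ₀ > 0`, for
small `c`: `b ≤ κ + Δ₀ → Re vS ≤ 1 + exp(-ε₁n)`, `b ≤ κ → Re vS ≤ 5/6`; here `b = Re L_τ'(0) = d(τ - t₀)`.
`S4_left` with `Δ₁ = min Δ Δ₀`: `b ≥ κ + Δ₁ → ‖vS - 1‖ ≤ exp(-ε₁n)`, as `L_τ(0) = 0`.  Together
`Re vS ≤ 1 + exp(-ε₁ n)` for all `τ ∈ [-1,1]`.  Pass to `tf` by B-SEG (1).  The derivative: B-LAN on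
`{τ ∈ [-1,1] : b(τ) ≥ κ + Δ/2}` (an interval, `Δ₁ = min(Δ/2, Δ₀)`; if `{b ≥ κ+Δ}` is empty there is nothing to
prove, otherwise the interval has length at least `Δ/(2d)`).  Dual size: B-DUAL with `ε_g η² ≤ ε/2`, `ε₀ = ε/2`. -/
def S_tv : Prop := ∀ (η R : ℝ) (σ P t : ℂ → ℂ), SKer η R σ P t → 0 < (deriv σ 0).re →
  ∀ κ Δ ε : ℝ, 0 < κ → κ ≤ 1 → 0 < Δ → 0 < ε → ∃ ε₁ : ℝ, 0 < ε₁ ∧ ∀ r : ℝ, 0 ≤ r → r < 1 →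
  ∃ n₀ : ℕ, ∀ n : ℕ, n₀ ≤ n → ∃ v vd : ℝ → ℂ, (∀ τ, HasDerivAt v (vd τ) τ) ∧ Continuous vd ∧
    (∀ τ ∈ Set.Icc (-1 : ℝ) 1, κ + Δ ≤ (deriv σ 0).re * (τ - (t 0).re) →
      ‖v τ - 1‖ ≤ Real.exp (-ε₁ * n) ∧ ‖vd τ‖ ≤ Real.exp (-ε₁ * n)) ∧
    (∀ τ ∈ Set.Icc (-1 : ℝ) 1, (v τ).re ≤ 1 + Real.exp (-ε₁ * n)) ∧
    (∀ τ ∈ Set.Icc (-1 : ℝ) 1, (deriv σ 0).re * (τ - (t 0).re) ≤ κ → (v τ).re ≤ 6 / 7) ∧
    Bd n r (Real.exp (-(n * (R - ε - κ * η)))) v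

end Pool.Agent.Q167.SL
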