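import Mathlib
import Pool.Agent.Q167.SL.StmB

/-!
# Project SL2, part C (helper167, MP_b5f63d_co): the strip kernel of the linear program.

For `η > 0` put `u_l = (2l+1)η`, `S_l = sinh² u_l`, `C_l = cosh u_l`, and for `w ∈ ℂ`
`Hf(w) = ∑ C_l/(S_l - w)`, `Gf(w) = ∑ 1/(S_l - w)`.  The kernel is given by
`sg(s) = sinh s · Hf(sinh² s)`, `tt(s) = cosh s · Gf(sinh² s)/Hf(sinh² s)`, `Ps' = - sg' tt`, `Ps(0) = 0`.
(In terms of Fourier series: `sg(s) = ∑_{m odd} sinh(ms)/sinh(mη)`,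
`sg·tt = ∑_{m even} sinh(ms)/sinh(mη)`; as sums over a lattice, `a = u_l - s`, `l ∈ ℤ`:
`sg = ½ ∑ 1/sinh a`, `sg·tt = ½ ∑ coth a`.)

Useful identities (`A, B` complex):
(I1) `1/sinh(u-s) - 1/sinh(u+s) = 2 cosh u sinh s/(sinh² u - sinh² s)`,
(I2) `coth(u-s) - coth(u+s) = 2 sinh s cosh s/(sinh² u - sinh² s)`,
(I3) `sinh(u-s) sinh(u+s) = sinh² u - sinh² s`,
(I4) `sinh²(x+iφ) = (cosh 2x cos 2φ - 1)/2 + (i/2) sinh 2x sin 2φ`.
-/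

set_option autoImplicit false

open MeasureTheory Filter Topology

namespace Pool.Agent.Q167.SL

/-- `∑ m / sinh (m η)` over the odd numbers -/
noncomputable def oS (η : ℝ) : ℝ := ∑' m : ℕ, (2 * (m : ℝ) + 1) / Real.sinh ((2 * m + 1) * η)

/-- `∑ m / sinh (m η)` over the even numbers `m ≥ 2` -/
noncomputable def eS (η : ℝ) : ℝ := ∑' m : ℕ, (2 * (m : ℝ) + 2) / Real.sinh ((2 * m + 2) * η)

/-- `g₀(ν) = ((ν + 1) / 2) log ((ν + 1) / 2) - ((ν - 1) / 2) log ((ν - 1) / 2)` -/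
noncomputable def gz (ν : ℝ) : ℝ :=
  (ν + 1) / 2 * Real.log ((ν + 1) / 2) - (ν - 1) / 2 * Real.log ((ν - 1) / 2)

/-- the exponent `g₀ (coth η) - g₀ (coth (2 η)) + …` -/
noncomputable def Ph (η : ℝ) : ℝ :=
  ∑' m : ℕ, (-1) ^ m * gz (Real.cosh ((m + 1) * η) / Real.sinh ((m + 1) * η))

noncomputable def Cl (η : ℝ) (l : ℕ) : ℝ := Real.cosh ((2 * l + 1) * η)

noncomputable def Sl (η : ℝ) (l : ℕ) : ℝ := Real.sinh ((2 * l + 1) * η) ^ 2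

noncomputable def Hf (η : ℝ) (w : ℂ) : ℂ := ∑' l : ℕ, (Cl η l : ℂ) / ((Sl η l : ℂ) - w)

noncomputable def Gf (η : ℝ) (w : ℂ) : ℂ := ∑' l : ℕ, 1 / ((Sl η l : ℂ) - w)

noncomputable def sg (η : ℝ) (s : ℂ) : ℂ := Complex.sinh s * Hf η (Complex.sinh s ^ 2)

noncomputable def tt (η : ℝ) (s : ℂ) : ℂ :=
  Complex.cosh s * Gf η (Complex.sinh s ^ 2) / Hf η (Complex.sinh s ^ 2)

noncomputable def Ps (η : ℝ) (s : ℂ) : ℂ :=
  -∫ u in (0 : ℝ)..1, s * (deriv (sg η) (u * s) * tt η (u * s))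

/-- C-K1.  **Analyticity, symmetries, values.**

Proof.  For `|Re s| < η` the number `w = sinh² s` is not in `[S_0, ∞)`: by (I4) `w` is real only if
`sin 2φ = 0` or `x = 0`; for `φ ∈ πℤ`, `w = sinh² x < S_0`; for `φ ∈ π/2 + πℤ`, `w = -cosh² x < 0`; for
`x = 0`, `w = -sin² φ ≤ 0`.  On compact sets of `w` in `ℂ \ {S_l}` the series `Hf`, `Gf` and their
derivatives converge uniformly (`|S_l - w| ≥ S_l/2` for large `l`, `C_l/S_l` decays like `4 exp(-u_l)`),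
so `Hf`, `Gf` are holomorphic off `{S_l}`.  `Hf(w) ≠ 0` off `[S_0, ∞)`: for `Im w ≠ 0`,
`Im Hf(w) = Im w ∑ C_l/|S_l - w|² ≠ 0`; for real `w < S_0` all terms are positive.  Hence `sg`, `tt` are
differentiable for `|Re s| < η`, and `sg(s) = 0` only if `sinh s = 0`, that is not for `0 < Re s`.
`sinh` odd, `sinh(s+πi) = -sinh s`, `cosh(s+πi) = -cosh s`, `conj` commutes with everything.
`sg(iφ) = i sin φ Hf(-sin² φ)` is imaginary, `tt(iφ) = cos φ Gf/Hf` real.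
Values at `0`: `deriv sg 0 = Hf(0) = ∑ C_l/S_l`, `tt 0 = Gf(0)/Hf(0)`, and
`∑_l cosh u_l/sinh² u_l = oS η`, `∑_l 1/sinh² u_l = eS η`: with `x = exp(-η)`,
`cosh u/sinh² u = 2 ∑_{j odd} j e^{-ju}`, `1/sinh² u = 2 ∑_{j even ≥ 2} j e^{-ju}` (`= 4∑ k e^{-2ku}`) and
`∑_l e^{-j(2l+1)η} = 1/(2 sinh(jη))`; exchange the double sums of positive terms.  (The library has these
sums: `Pool.Agent.TH41.SC.oddSum_eq`, `evenSum_eq`, `ph_cc`, file `TH41/SC/Fin.lean`, `SC/Lambert.lean`.) -/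
def S_k1 : Prop := ∀ η : ℝ, 0 < η →
  (∀ s : ℂ, |s.re| < η → DifferentiableAt ℂ (sg η) s ∧ DifferentiableAt ℂ (tt η) s) ∧
  (∀ s : ℂ, sg η (-s) = -sg η s ∧ tt η (-s) = tt η s) ∧
  (∀ s : ℂ, sg η ((starRingEnd ℂ) s) = (starRingEnd ℂ) (sg η s) ∧
    tt η ((starRingEnd ℂ) s) = (starRingEnd ℂ) (tt η s)) ∧
  (∀ s : ℂ, sg η (s + Real.pi * Complex.I) = -sg η s ∧ tt η (s + Real.pi * Complex.I) = -tt η s) ∧
  (∀ φ : ℝ, (sg η (φ * Complex.I)).re = 0 ∧ (tt η (φ * Complex.I)).im = 0 ∧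
    (deriv (sg η) (φ * Complex.I)).im = 0) ∧
  (∀ s : ℂ, 0 < s.re → s.re < η → sg η s ≠ 0) ∧
  sg η 0 = 0 ∧ deriv (sg η) 0 = (oS η : ℂ) ∧ tt η 0 = ((eS η / oS η : ℝ) : ℂ) ∧ 0 < oS η ∧ 0 < eS η

/-- C-K2.  **The primitive.**
Proof (from C-K1).  The strip `|Re s| < η` is star shaped about `0` and `f = -(deriv sg)·tt` is holomorphic in
it, so `Ps` is the primitive of `f` with `Ps 0 = 0` (e.g. `Complex` primitives on star shaped/convex sets: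
compare with the primitive on a ball or rectangle; the library `TH41/BL/LMA.lean`, `PH4.lean` does the same
for `Lam`, `PJ`).  `f` is even, so `Ps` is odd; conjugation.  `(Ps(iφ)).re = 0`: derivative of
`φ ↦ Ps(iφ)` is `i f(iφ)` with `f(iφ)` real.  `f(s + πi) = f(s)` (`deriv sg (s+πi) = -deriv sg s`), so
`Ps(s+πi) - Ps(s)` is constant on the strip, equal to `Ps(πi)`, which is imaginary.
Bounds on `|Re s| ≤ η' < η`: `sg` and `Re Ps` are continuous and invariant up to sign under `s ↦ s + πi`, so they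
are bounded by their values on the compact set `|Re s| ≤ η'`, `|Im s| ≤ π`. -/
def S_k2 : Prop := S_k1 → ∀ η : ℝ, 0 < η →
  (∀ s : ℂ, |s.re| < η → HasDerivAt (Ps η) (-(deriv (sg η) s * tt η s)) s) ∧
  (∀ s : ℂ, Ps η (-s) = -Ps η s) ∧
  (∀ s : ℂ, Ps η ((starRingEnd ℂ) s) = (starRingEnd ℂ) (Ps η s)) ∧
  (∀ φ : ℝ, (Ps η (φ * Complex.I)).re = 0) ∧
  (∀ s : ℂ, |s.re| < η → (Ps η (s + Real.pi * Complex.I)).re = (Ps η s).re) ∧
  (∀ η' : ℝ, 0 < η' → η' < η → ∃ M : ℝ, ∀ s : ℂ, |s.re| ≤ η' →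
    ‖sg η s‖ ≤ M ∧ |(Ps η s).re| ≤ M)

/-- C-K3a.  **`Re sg ≥ 0` in the rectangle** `0 ≤ Re s < η`, `|Im s| ≤ π/2`.

Proof.  Let `v = sin² φ`, `g(p) = sinh p/(sinh² p + v)`.  By (I1) and
`Re 1/sinh(p+iq) = sinh p cos q/(sinh² p + sin² q)`,
`Re sg(x+iφ) = ½ cos φ ∑_{l≥0} (g(u_l - x) - g(u_l + x))`, `0 ≤ x < η`.
Fix `0 < δ < η/2` and the closed rectangle `K_δ = [0, η-δ] × [-π/2, π/2]`.  On its boundary
`Re sg ≥ -δ oS(η)`: on `x = 0` and on `φ = ±π/2` it is `0`; on `x = η - δ`, reorder: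
`∑ = g(δ) + ∑_{l≥1} (g(2lη+δ) - g(2lη-δ))`, `g(δ) ≥ 0`, and
`|g'(p)| = cosh p |v - sinh² p|/(sinh² p + v)² ≤ cosh p/sinh² p`, which is decreasing in `p`, so
`|g(2lη+δ) - g(2lη-δ)| ≤ 2δ cosh((2l-1)η)/sinh²((2l-1)η)`, with sum over `l ≥ 1` equal to `2δ oS(η)` (C-K1 value).
Maximum principle for `exp(-sg)` on `K_δ` (`Complex.norm_le_of_forall_mem_frontier_norm_le`):
`Re sg ≥ -δ oS(η)` on `K_δ`.  Let `δ → 0`. -/
def S_k3a : Prop := S_k1 → ∀ η x φ : ℝ, 0 < η → 0 ≤ x → x < η → |φ| ≤ Real.pi / 2 →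
  0 ≤ (sg η (x + φ * Complex.I)).re

/-- C-K3.  **The derivative on the imaginary axis is positive.**
Proof (from C-K1, C-K3a).  Let `s₀ = iφ₀`, `|φ₀| < π/2`, `d = deriv sg s₀`, a real number.  As
`Re sg(x + iφ₀) ≥ 0` for small `x ≥ 0` with equality at `x = 0`, `d ≥ 0`.  Suppose `d = 0`.  `sg` is analytic
near `s₀` and not locally constant (identity theorem: `deriv sg 0 = oS η ≠ 0`, the strip is connected), so
`sg(s) - sg(s₀) = (s-s₀)^k h(s)` with `k ≥ 2`, `h` analytic, `h(s₀) = |h(s₀)| e^{iβ} ≠ 0`, and `Re sg(s₀) = 0`.  For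
`s = s₀ + ρ e^{iθ}`, `|θ| < π/2`, `Re sg(s)/ρ^k → |h(s₀)| cos(kθ+β)` as `ρ → 0+`; `kθ + β` runs through an open
interval of length `kπ ≥ 2π`, which contains a point congruent to `π`, so `Re sg(s) < 0` for some `s` near `s₀` with
`Re s > 0`, contradiction to C-K3a. -/
def S_k3 : Prop := S_k1 → S_k3a → ∀ η φ : ℝ, 0 < η → |φ| < Real.pi / 2 →
  0 < (deriv (sg η) (φ * Complex.I)).re

/-- C-K4.  **The threshold on the imaginary axis.**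
Proof.  `tt(iφ) = cos φ · Gf(-v)/Hf(-v)`, `v = sin² φ`.  As `C_l ≥ 1`, `0 ≤ Gf(-v) ≤ Hf(-v)`, which gives the second
claim.  For the first, `0 ≤ cos φ ≤ 1` and `Gf(-v) Hf(0) ≤ Gf(0) Hf(-v)`: this is
`∑_{l,j} [C_l/(S_l (S_j+v)) - C_j/(S_l(S_j+v))] ≤ 0`, i.e. (symmetrise in `l,j`)
`½ ∑_{l,j} (C_l - C_j) [1/(S_l(S_j+v)) - 1/(S_j(S_l+v))] = ½ ∑ (C_l - C_j) v (S_j - S_l)/(S_l S_j (S_j+v)(S_l+v)) ≤ 0`
because `C_l ≥ C_j ↔ S_l ≥ S_j`. -/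
def S_k4 : Prop := ∀ η φ : ℝ, 0 < η → |φ| ≤ Real.pi / 2 →
  (tt η (φ * Complex.I)).re ≤ (tt η 0).re ∧ (tt η (φ * Complex.I)).re ≤ Real.cos φ ∧
  0 ≤ (tt η (φ * Complex.I)).re

/-- C-K5.  **Dependence on `η`.**
Proof.  `Im sg(iφ) = sin φ ∑ C_l/(S_l + v)`, `v = sin² φ`.  Continuity in `η > 0`: locally uniform convergence of
continuous functions.  As `S_l + v ≤ cosh² u_l`, it is `≥ sin φ ∑ 1/cosh u_l ≥ sin φ · #{l : (2l+1)η ≤ 1}/cosh 1`,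
which tends to infinity as `η → 0`. -/
def S_k5 : Prop := ∀ φ : ℝ, 0 < φ → φ < Real.pi →
  ContinuousOn (fun η : ℝ => (sg η (φ * Complex.I)).im) (Set.Ioi 0) ∧
  ∀ B η : ℝ, 0 < η → ∃ η' : ℝ, 0 < η' ∧ η' ≤ η ∧ B ≤ (sg η' (φ * Complex.I)).im

/-- C-K6b.  **Near the dual line the exponent is almost constant.**

`f(x, φ) = Re sg + Re Ps - ½ log ‖sg‖` at `x + iφ`.
Proof.  Write `s = η - r`, `0 < Re r < η`, `A = 2lη`.  Shifting the index in the lattice sums (I1), (I2) (all sums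
below converge absolutely):
`sg(η-r) = ½ X`, `X = 1/sinh r + ∑_{l≥1} (1/sinh(A+r) - 1/sinh(A-r)) = N(r)/sinh r`,
  `N(r) = 1 - sinh² r ∑_{l≥1} 2 cosh A/(sinh² A - sinh² r)`;
`(sg·tt)(η-r) = ½ Z - ½`, `Z = coth r + ∑_{l≥1} (coth(A+r) - coth(A-r))` (in
`½ ∑_{l≥0} [coth(2lη+r) - coth((2l+2)η-r)]` subtract `1` from both before shifting: this produces the `-½`);
`X - Z = -sinh r · Y`, `Y = 1/(1+cosh r) + ∑_{l≥1} 2/(cosh A + cosh r)`, because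
`1/sinh p - coth p = -tanh(p/2)` and `tanh((A+r)/2) - tanh((A-r)/2) = 2 sinh r/(cosh A + cosh r)`.
So `B(s) := sg'(1 - tt) - ½ sg'/sg = (sg'/sg)(sg - sg·tt - ½) = -½ Y (cosh r - sinh r N'(r)/N(r))`
(`sg'/sg = -X'/X`, `sinh r X'/X = sinh r N'/N - cosh r`, `sg - sg tt - ½ = ½(X - Z)`).
The function `Bh(r) = -½ Y (cosh r - sinh r N'/N)` is continuous on the compact rectangle
`K = {0 ≤ Re r ≤ η/2, |Im r| ≤ π/2}`: `Re cosh r ≥ 0` there, so no denominator of `Y` vanishes;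
`sinh² r ≠ sinh² A` as `|Re r| < 2η`; `N ≠ 0` for `Re r > 0` as `sg ≠ 0`, `sinh r ≠ 0`, and
`N(iφ) = 1 + sin² φ ∑ 2 cosh A/(sinh² A + sin² φ) > 0`.  And `Bh(iφ)` is real.  By uniform continuity
`sup_{|φ|≤π/2} |Im Bh(δ+iφ)| → 0` as `δ → 0+`.
Finally `∂_φ f(x,φ) = Re(i B(x+iφ)) = -Im B`, so `|f(η-δ, φ) - f(η-δ, π/2)| ≤ π sup |Im Bh(δ + i·)|`
(for `r = δ - iφ'`). -/
def S_k6b : Prop := S_k1 → S_k2 → ∀ η ε : ℝ, 0 < η → 0 < ε → ∃ δ₀ : ℝ, 0 < δ₀ ∧ δ₀ < η ∧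
  ∀ δ φ : ℝ, 0 < δ → δ ≤ δ₀ → |φ| ≤ Real.pi / 2 →
  (sg η ((η - δ : ℝ) + φ * Complex.I)).re + (Ps η ((η - δ : ℝ) + φ * Complex.I)).re -
      1 / 2 * Real.log ‖sg η ((η - δ : ℝ) + φ * Complex.I)‖ ≤
    (Ps η ((η - δ : ℝ) + (Real.pi / 2 : ℝ) * Complex.I)).re -
      1 / 2 * Real.log ‖sg η ((η - δ : ℝ) + (Real.pi / 2 : ℝ) * Complex.I)‖ + ε

/-! ### The closed form -/

/-- `½ ∑_{l ∈ ℤ} 1/cosh(x - (2l+1)η)` -/
noncomputable def yf (η x : ℝ) : ℝ := ∑' l : ℤ, 1 / (2 * Real.cosh (x - (2 * l + 1) * η))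

/-- `½ ∑_{l ≥ 0} (tanh((2l+1)η + x) - tanh((2l+1)η - x))` -/
noncomputable def zf (η x : ℝ) : ℝ :=
  ∑' l : ℕ, (Real.tanh ((2 * l + 1) * η + x) - Real.tanh ((2 * l + 1) * η - x)) / 2

/-- C-CF1.  **Product of the sums over the two cosets.**

Proof.  `y(x+η) = ½ ∑_{j∈ℤ} 1/cosh b_j`, `b_j = x - 2jη`.  For `a = x - (2l+1)η`, `b = b_j`, `a - b = kη` with `k` odd,
`1/(cosh a cosh b) = (tanh a - tanh b)/sinh(a - b)`.  The double series of the positive terms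
`1/(cosh a cosh b)` converges; sum it over `j` for fixed `k`:
`y(x) y(x+η) = ¼ ∑_{k odd} T_k/sinh(kη)`, `T_k = ∑_j (tanh(b_j + kη) - tanh b_j)`.
Pair `k > 0` with `-k`: `T_k/sinh(kη) + T_{-k}/sinh(-kη) = (T_k - T_{-k})/sinh(kη)` and
`T_k - T_{-k} = ∑_j (tanh(b_j + kη) - tanh(b_j - kη)) = 2k`, since it is the sum of `k` telescoping sums
`∑_j (tanh(c - 2jη + 2η) - tanh(c - 2jη)) = 1 - (-1) = 2`.  So the product is `¼ ∑_{k odd > 0} 2k/sinh(kη)`. -/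
def S_cf1 : Prop := ∀ η x : ℝ, 0 < η → yf η x * yf η (x + η) = oS η / 2

/-- C-CF2.  **Integral formula for the exponent.**

Proof.  The library `TH41/SC` has, with `r = exp(-η)^2`, `u r n = coth²(nη)`, weights `W r M k` (sum `1`) and
`mx` (`W48/KS/Defs.lean`): `mx_eq`: `mx (W r M ·) (cc r (2·+1)) = ∑_{k≤M} H(r^{2k+1}) - ∑_{k<M} H(r^{2k+2})`, which tends to
`Φ r = Ψ η` (`alt_lim`, `Ψ_eq`), and `Ψ η` is `Ph η` by definition.  Here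
`mx = 1 - log 2 - ½ ∫_0^1 log m_M(t) dt`, `m_M(t) = ∑_k W_k/(u_{2k+1} - t²)`.  For `t ∈ [0,1)`,
`m_M(t) → m(t) = ∑ a_k/(u_{2k+1} - t²)/∑ a_k` (`mean_lim` for the bounded function `(1-t²)/(u_{2k+1}-t²) ∈ [0,1]`)
and `1/u_1 ≤ m_M(t) ≤ 1/(1-t²)`, so by dominated convergence (`log(1-t²)` is integrable)
`Ph η = 1 - log 2 - ½ ∫_0^1 log m(t) dt`.  Substitute `t = tanh x`, `dt = dx/cosh² x`:
`a_k = e^η C_k/(2 S_k)` (definition of `a`), `u_{2k+1} - tanh² x = (S_k + cosh² x)/(S_k cosh² x)`, `∑ C_k/S_k = oS η`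
(`oddSum_eq`), so `m(tanh x) = (cosh² x/oS) ∑ C_k/(S_k + cosh² x) = cosh x · y(x)/oS`, using
`½(1/cosh(x-u) + 1/cosh(x+u)) = cosh x cosh u/(cosh² x + sinh² u)`.  Finally
`∫_0^∞ log(cosh x)/cosh² x dx = 1 - log 2` (by parts, `(log cosh)' = tanh`). -/
def S_cf2 : Prop := ∀ η : ℝ, 0 < η →
  IntegrableOn (fun x => Real.log (yf η x) / Real.cosh x ^ 2) (Set.Ioi 0) ∧
  Ph η = 1 / 2 * (1 - Real.log 2) + 1 / 2 * Real.log (oS η) -
    1 / 2 * ∫ x in Set.Ioi (0 : ℝ), Real.log (yf η x) / Real.cosh x ^ 2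

/-- C-CF3.  **The value of the dual exponent, real form.**

Proof (from CF1, CF2).  `y = yf η` is positive, smooth, even, `2η`-periodic; `z = zf η` has `z(0) = 0`,
`z'(x) = ½ ∑_{l∈ℤ} 1/cosh²(x - (2l+1)η)` (even), `z(η) = ½ ∑_{l≥0} (tanh((2l+2)η) - tanh(2lη)) = ½`.
By parts `∫_0^x z y'/y = z(x) log y(x) - ∫_0^x z' log y`, so the limit as `x → η` of the expression is
`½ log y(η) - ∫_0^η z' log y - ½ log y(η) = -∫_0^η z' log y`.  Unfolding: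
`∫_0^η z' log y = ¼ ∫_{-η}^{η} ∑_l log y(x)/cosh²(x-(2l+1)η) dx = ¼ ∫_ℝ log y(X+η)/cosh² X dX`
(put `x = X + (2l+1)η`, `y` is `2η`-periodic, the intervals `[-(2l+2)η, -2lη]` tile the line), and by CF1
`log y(X+η) = log(oS/2) - log y(X)`, `∫_ℝ 1/cosh² = 2`: it equals
`½ log(oS/2) - ½ ∫_0^∞ log y/cosh²`.  By CF2 the limit `-½ log(oS/2) + ½∫_0^∞ log y/cosh²` is `½ - Ph η`. -/
def S_cf3 : Prop := S_cf1 → S_cf2 → ∀ η : ℝ, 0 < η →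
  Tendsto (fun x => (∫ v in (0 : ℝ)..x, zf η v * deriv (yf η) v / yf η v) -
    1 / 2 * Real.log (yf η x)) (𝓝[<] η) (𝓝 (1 / 2 - Ph η))

/-- C-CF4.  **The value of the dual exponent.**

Proof.  On the line `Im s = π/2`, `s = x + iπ/2`, `|x| < η`: `sinh s = i cosh x`, `cosh s = i sinh x`,
`sinh² s = -cosh² x`, so `sg = i cosh x ∑ C_l/(S_l + cosh² x) = i yf(x)` (identity
`½(1/cosh(x-u) + 1/cosh(x+u)) = cosh x cosh u/(cosh² x + sinh² u)`) and `sg·tt = cosh s sinh s Gf =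
-cosh x sinh x ∑ 1/(S_l + cosh² x) = -zf(x)` (identity `½(tanh(u+x) - tanh(u-x)) = sinh x cosh x/(cosh² x + sinh² u)`;
`tanh a + tanh b = sinh(a+b)/(cosh a cosh b)`).  So `tt = i zf/yf`, `deriv sg = i yf'(x)`,
`Ps' = -deriv sg · tt = yf' zf/yf`, and `Re Ps(iπ/2) = 0`: `Re Ps(x + iπ/2) = ∫_0^x zf yf'/yf`.  Use CF3. -/
def S_cf4 : Prop := S_k1 → S_k2 → S_cf3 → S_cf1 → S_cf2 → ∀ η : ℝ, 0 < η →
  Tendsto (fun x : ℝ => (Ps η (x + (Real.pi / 2 : ℝ) * Complex.I)).re -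
    1 / 2 * Real.log ‖sg η (x + (Real.pi / 2 : ℝ) * Complex.I)‖) (𝓝[<] η) (𝓝 (1 / 2 - Ph η))

/-- C-K7.  **The exponent is continuous and strictly decreasing.**
Proof.  For `x > 0`, `d/dx gz(coth x) = -x/sinh² x` (`gz'(ν) = ½ log((ν+1)/(ν-1))`, at `ν = coth x` this is `x`).
So `gz(coth((2j+1)η)) - gz(coth((2j+2)η)) = ∫_{(2j+1)η}^{(2j+2)η} x/sinh² x dx = ∫_{2j+1}^{2j+2} η² y/sinh²(ηy) dy`
and (pairing the terms, the series converges absolutely, `Pool.Agent.TH41.SC.Ψ_summable`)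
`Ph η = ∑_j ∫_{2j+1}^{2j+2} η² y/sinh²(ηy) dy`.  For every `y > 0` the function `η ↦ η²/sinh²(ηy)` is continuous and
strictly decreasing; the series converges locally uniformly. -/
def S_k7 : Prop := ContinuousOn Ph (Set.Ioi 0) ∧ StrictAntiOn Ph (Set.Ioi 0)

end Pool.Agent.Q167.SL
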