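import Mathlib
import Pool.Agent.Q167.SL.StmC

/-!
# Project SL2, part D (helper167, MP_b5f63d_co): linearity, the family of all frequencies, the dual
function, the upper bound near the threshold.
-/

set_option autoImplicit false

open MeasureTheory Filter Topology

namespace Pool.Agent.Q167.SL

open Pool.Agent.TH41.KL (PD cosA)

/-- D-LIN.  **Linearity of the pairing.**
Proof.  On `shell × shell` (finite measure, no zero vectors since `r ≥ 0`) the integrand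
`g(cosA x y) u⟨x,y⟩` is bounded and measurable for continuous `u` and `g` continuous on `[-1,1]`
(`cosA x y ∈ [-1,1]`, `|⟨x,y⟩| < 1`; `cosA` is continuous at nonzero vectors), so the inner integrals exist,
are bounded and measurable in `x`; hence `pr(g, u + w) = pr(g,u) + pr(g,w)`,
`pr(g, Re u) = Re pr(g,u)` (`integral_re`-type lemmas) and `|Re z| ≤ |z|`.  Scalars: `integral_const_mul`
(no integrability needed).  Monotonicity in `D`: `g 1 ≥ 0` for `n > 0` (apply `PD` with one unit vector). -/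
def S_lin : Prop := ∀ (n : ℕ) (r : ℝ), 0 < n → 0 ≤ r → r < 1 →
  (∀ (u w : ℝ → ℂ) (D D' : ℝ), Continuous u → Continuous w → Bd n r D u → Bd n r D' w →
    Bd n r (D + D') (fun τ => u τ + w τ)) ∧
  (∀ (u : ℝ → ℂ) (D : ℝ) (c : ℂ), Bd n r D u → Bd n r (‖c‖ * D) (fun τ => c * u τ)) ∧
  (∀ (u : ℝ → ℂ) (D : ℝ), Continuous u → Bd n r D u → Bd n r D (fun τ => (((u τ).re : ℝ) : ℂ))) ∧
  (∀ (u : ℝ → ℂ) (D D' : ℝ), D ≤ D' → Bd n r D u → Bd n r D' u)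

/-- D-CUT.  **The dual function.**

Proof.  `a = t₀ + Δ ∈ [-1, 1)`, `K = 1 + 2/Δ`.  With the smooth step `p(x) = 3x² - 2x³` on `[0,1]` (`0` before, `1`
after; `C¹`, `0 ≤ p ≤ 1`, `|p'| ≤ 3/2`) put `χ(τ) = p((τ - t₀ - 3Δ)/Δ)` and `b(τ) = 1 - p((τ - t₀ - 4Δ)/Δ)`; the
derivatives are at most `2/Δ` in absolute value.
`φ₁ = χ (1 - v)`, `φ₁' = χ'(1 - v) - χ vd`: bounded by `K θ₁` on `[a,1]` (zero for `τ ≤ t₀ + 3Δ`).  By A-EXT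
(`S_ext`) there is a continuous `w₁ = φ₁` on `[a,1]`, `|w₁| ≤ 6Kθ₁M` on `[-1,1]`, dual size `6Kθ₁D`.  A-EXT for `b`
(bound `K`): `w₂ = b` on `[a,1]`, `|w₂| ≤ 6KM`, dual size `6KD`.
`v' = Re(v + w₁) - θ₁ Re w₂`.
* `τ ≥ t₀ + 4Δ`: `v + w₁ = 1`, so `v' = 1 - θ₁ b ≤ 1`, and `v' = 1` for `τ ≥ t₀ + 5Δ`.
* `t₀ + 3Δ ≤ τ ≤ t₀ + 4Δ`: `Re(v + w₁) = 1 - (1 - χ) Re(1 - v) ≤ 1 + θ₁`, `b = 1`: `v' ≤ 1`.
* `a ≤ τ ≤ t₀ + 3Δ`: `w₁ = 0`, `v' = Re v - θ₁ ≤ 1`.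
* `-1 ≤ τ ≤ a`: `v' ≤ 6/7 + 6Kθ₁M + 6Kθ₁M ≤ 1`.
Dual size by D-LIN: `Dv + 6Kθ₁D + θ₁ 6KD`. -/
def S_cut : Prop := S_lin → S_ext → ∀ (n : ℕ) (r t₀ Δ θ θ₁ M D Dv : ℝ) (v vd : ℝ → ℂ), 0 < n →
  0 ≤ r → r < 1 → 0 < Δ → -1 ≤ t₀ → t₀ + 5 * Δ < 1 → 0 ≤ θ → 6 * θ ≤ 1 → 0 ≤ θ₁ → 0 ≤ M → 0 ≤ D →
  Fam n r (t₀ + Δ) θ M D → (∀ τ, HasDerivAt v (vd τ) τ) → Continuous vd →
  (∀ τ ∈ Set.Icc (-1 : ℝ) 1, t₀ + 3 * Δ ≤ τ → ‖v τ - 1‖ ≤ θ₁ ∧ ‖vd τ‖ ≤ θ₁) →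
  (∀ τ ∈ Set.Icc (-1 : ℝ) 1, (v τ).re ≤ 1 + θ₁) →
  (∀ τ ∈ Set.Icc (-1 : ℝ) 1, τ ≤ t₀ + 2 * Δ → (v τ).re ≤ 6 / 7) →
  Bd n r Dv v → 84 * ((1 + 2 / Δ) * θ₁ * M) ≤ 1 →
  ∃ v' : ℝ → ℝ, Continuous v' ∧ (∀ τ : ℝ, t₀ + 5 * Δ ≤ τ → τ ≤ 1 → v' τ = 1) ∧
    (∀ τ : ℝ, -1 ≤ τ → τ ≤ 1 → v' τ ≤ 1) ∧
    Bd n r (Dv + 12 * ((1 + 2 / Δ) * θ₁ * D)) (fun τ => ((v' τ : ℝ) : ℂ))

/-- D-K1A (first part of C-K1; the proof is in the docstring of `S_k1`): analyticity, no zeros -/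
def S_k1a : Prop := ∀ η : ℝ, 0 < η →
  (∀ s : ℂ, |s.re| < η → DifferentiableAt ℂ (sg η) s ∧ DifferentiableAt ℂ (tt η) s ∧
    DifferentiableAt ℂ (fun z => Hf η (Complex.sinh z ^ 2)) s) ∧
  (∀ s : ℂ, 0 < s.re → s.re < η → sg η s ≠ 0) ∧
  (∀ s : ℂ, |s.re| < η → Hf η (Complex.sinh s ^ 2) ≠ 0)

/-- D-K1B (second part of C-K1): symmetries -/
def S_k1b : Prop := ∀ η : ℝ, 0 < η →
  (∀ s : ℂ, sg η (-s) = -sg η s ∧ tt η (-s) = tt η s) ∧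
  (∀ s : ℂ, sg η ((starRingEnd ℂ) s) = (starRingEnd ℂ) (sg η s) ∧
    tt η ((starRingEnd ℂ) s) = (starRingEnd ℂ) (tt η s)) ∧
  (∀ s : ℂ, sg η (s + Real.pi * Complex.I) = -sg η s ∧ tt η (s + Real.pi * Complex.I) = -tt η s) ∧
  (∀ φ : ℝ, (sg η (φ * Complex.I)).re = 0 ∧ (tt η (φ * Complex.I)).im = 0 ∧
    (deriv (sg η) (φ * Complex.I)).im = 0)

/-- D-K1C (third part of C-K1): values at `0` -/
def S_k1c : Prop := S_k1a → ∀ η : ℝ, 0 < η →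
  sg η 0 = 0 ∧ deriv (sg η) 0 = (oS η : ℂ) ∧ tt η 0 = ((eS η / oS η : ℝ) : ℂ) ∧ 0 < oS η ∧ 0 < eS η

/-- D-K6.  **The kernel of the linear program is a strip kernel.**
Proof.  All fields except `dual` are parts of `S_k1`, `S_k2`.  `dual`: let `ε > 0`, take `δ₀` small so that
C-K6b holds with `ε/2`, and (C-CF4) `(Ps η (x + iπ/2)).re - ½ log ‖sg η (x + iπ/2)‖ ≤ 1/2 - Ph η + ε/2` for
`η - δ₀ ≤ x < η`.  Let `s = (η - δ) + iφ`.  `sg η s ≠ 0` by C-K1.  Choose an integer `k` with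
`|φ - kπ| ≤ π/2`; `‖sg‖`, `|Re sg|` and `Re Ps` do not change under `φ ↦ φ - kπ` (induction on `k`, both
directions), so assume `|φ| ≤ π/2`; then `|Re sg| = Re sg` by C-K3a, and C-K6b + the choice of `δ₀` give the
bound. -/
def S_k6 : Prop := S_k1 → S_k2 → S_k3a → S_k6b → S_cf4 → S_cf3 → S_cf1 → S_cf2 → ∀ η : ℝ, 0 < η →
  SKer η (Ph η) (sg η) (Ps η) (tt η)

/-- D-FC.  **Every frequency is a frequency of some kernel with a small threshold.**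
Proof.  `t₀ = (tt η 0).re = eS/oS > 0`.  Choose `φ₁ ∈ (0, π/2)` with `cos φ₁ ≤ t₀`.  If `|ξ| ≤ Im sg_η(iφ₁)`, the
intermediate value theorem for the continuous odd function `φ ↦ Im sg_η(iφ)` on `[-φ₁, φ₁]` gives `φ`, with
`η' = η`, and `tt_η(iφ).re ≤ tt_η(0).re` by C-K4.  If `|ξ| > Im sg_η(iφ₁)`: by C-K5 there is `η₁ ≤ η` with
`|ξ| ≤ Im sg_{η₁}(iφ₁)` and by continuity in `η` on `[η₁, η]` some `η'` with `Im sg_{η'}(iφ₁) = |ξ|`; take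
`φ = φ₁` or `-φ₁` (`sg` odd, `tt` even); `tt_{η'}(iφ₁).re ≤ cos φ₁ ≤ t₀` by C-K4. -/
def S_fc : Prop := S_k1 → S_k4 → S_k5 → ∀ η ξ : ℝ, 0 < η → ∃ η' φ : ℝ, 0 < η' ∧ η' ≤ η ∧
  |φ| < Real.pi / 2 ∧ (sg η' (φ * Complex.I)).im = ξ ∧
  (tt η' (φ * Complex.I)).re ≤ (tt η 0).re

/-- D-FA.  **The family of all frequencies.**

Proof.  For `lam ∈ ℝ` put `ξ = lam/n`, `C₀ = exp(2 |Ph η|)`.
(1) `|ξ| ≥ C₀`: `u = exp(i lam τ)` exactly, `u = exp(n σ τ)` with `σ = iξ`; errors `0`, size `1`, dual size by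
A-EXPK (`ε := ε`) at most `exp(n(-½ log|ξ| - ½ + ε)) ≤ exp(-n(Ph η - ε))`.
(2) `|ξ| ≤ C₀`.  For every `ξ* ∈ [-C₀, C₀]` take `η', φ*` from D-FC and apply B-TA (`S_ta`) to the kernel of
`η'` (`SKer`, hypothesis `h3`) at `φ*`: `tt_{η'}(iφ*).re ≤ tt_η(0).re < a`, `deriv sg_{η'}(iφ*)` has positive real
part (`h4`).  This gives `ρ, ε₁`.  The function `f(φ) = Im sg_{η'}(iφ)` is differentiable at `φ*` with derivative
`Re (deriv sg_{η'} (iφ*)) > 0` and continuous near `φ*`, so `f` takes on `(φ*-ρ, φ*+ρ)` all values in a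
neighbourhood `(ξ*-ρ', ξ*+ρ')` (intermediate value theorem).  Finitely many of these neighbourhoods cover
`[-C₀, C₀]`; take the minimum of the `ε₁` and, for given `ε₂, r`, the maximum of the `n₀`.  For
`ξ = f(φ)`, `|φ - φ*| < ρ`: `n Im sg(iφ) = lam`.  Dual size: `exp(-n(Ph η' - ε)) ≤ exp(-n(Ph η - ε))` since
`η' ≤ η` (`h6`), and `Bd` is monotone in `D` (D-LIN). -/
def S_fa : Prop := S_lin → S_ta → S_expk →
  (∀ η : ℝ, 0 < η → SKer η (Ph η) (sg η) (Ps η) (tt η)) →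
  (∀ η φ : ℝ, 0 < η → |φ| < Real.pi / 2 → 0 < (deriv (sg η) (φ * Complex.I)).re) →
  (∀ η ξ : ℝ, 0 < η → ∃ η' φ : ℝ, 0 < η' ∧ η' ≤ η ∧ |φ| < Real.pi / 2 ∧
    (sg η' (φ * Complex.I)).im = ξ ∧ (tt η' (φ * Complex.I)).re ≤ (tt η 0).re) →
  StrictAntiOn Ph (Set.Ioi 0) →
  ∀ η a ε : ℝ, 0 < η → (tt η 0).re < a → 0 ≤ a → a < 1 → 0 < ε → ∃ ε₁ : ℝ, 0 < ε₁ ∧
  ∀ ε₂ r : ℝ, 0 < ε₂ → 0 ≤ r → r < 1 → ∃ n₀ : ℕ, ∀ n : ℕ, n₀ ≤ n →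
    Fam n r a (Real.exp (-(ε₁ * n))) (Real.exp (ε₂ * n)) (Real.exp (-(n * (Ph η - ε))))

/-- D-UPC.  **The upper bound a little beyond the threshold.**
Proof.  This is the proof of `Pool.Agent.TH41.BL.MN10f.mn10` (file `TH41/BL/MN10.lean`): the distribution gets
an additional atom of weight `δ` with a large parameter `P`, `ph P > μ = eS η / oS η` (there `ph P > κ`); as
`μ < 1` (Cauchy; or `ph ≤ 1` and the proof of `mn10`: `μ` is an average of the numbers `ph (cc ..) < 1`), the new mean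
`δ ph P + (1 - δ) μ` is strictly larger than `μ`; put `ρ = δ (ph P - μ)/2`.  Everything else is unchanged
(`k10_mx`, `mx_cons`, `mean_lim`, `alt_lim`); `Ph`, `eS`, `oS` are `Pool.Agent.TH41.SC.Ψ`, `evenSum`, `oddSum` by
`rfl`; the relation of `μ` with `a r k`, `r = exp(-η)^2`: `oddSum_eq`, `evenSum_eq`, `hyp_iff`. -/
def S_upc : Prop := ∀ η ε : ℝ, 0 < η → 0 < ε → ∃ ρ : ℝ, 0 < ρ ∧ ∀ κ : ℝ, κ < 1 →
  κ < eS η / oS η + ρ → ∀ᶠ n : ℕ in atTop, ∃ g : ℝ → ℝ, ContinuousOn g (Set.Icc (-1) 1) ∧ PD n g ∧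
    (∀ t : ℝ, -1 ≤ t → t ≤ κ → g t ≤ 0) ∧
    0 < (∫ u in Metric.ball (0 : EuclideanSpace ℝ (Fin n)) 1,
      ∫ w in Metric.ball (0 : EuclideanSpace ℝ (Fin n)) 1, g (cosA u w)) /
        (volume (Metric.ball (0 : EuclideanSpace ℝ (Fin n)) 1)).toReal ^ 2 ∧
    g 1 / ((∫ u in Metric.ball (0 : EuclideanSpace ℝ (Fin n)) 1,
      ∫ w in Metric.ball (0 : EuclideanSpace ℝ (Fin n)) 1, g (cosA u w)) /
        (volume (Metric.ball (0 : EuclideanSpace ℝ (Fin n)) 1)).toReal ^ 2) ≤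
      Real.exp (n * (Ph η + ε))

/-- the lower bound for all auxiliary functions (assembled by helper167) -/
def S_low : Prop := ∀ η s ε : ℝ, 0 < η → eS η / oS η < s → s < 1 → 0 < ε → ∃ n₀ : ℕ, ∀ n : ℕ,
  n₀ ≤ n → ∀ g : ℝ → ℝ, ContinuousOn g (Set.Icc (-1) 1) → PD n g →
    (∀ t : ℝ, -1 ≤ t → t ≤ s → g t ≤ 0) →
    (∫ u in Metric.ball (0 : EuclideanSpace ℝ (Fin n)) 1,
      ∫ w in Metric.ball (0 : EuclideanSpace ℝ (Fin n)) 1, g (cosA u w)) /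
        (volume (Metric.ball (0 : EuclideanSpace ℝ (Fin n)) 1)).toReal ^ 2 ≤
      Real.exp (-(n * (Ph η - ε))) * g 1

end Pool.Agent.Q167.SL
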