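import Mathlib
import Pool.Agent.Q167.SL.StmD

/-!
# Project SL2 (helper167, MP_b5f63d_co): the lower bound for all auxiliary functions
-/

set_option autoImplicit false

open MeasureTheory Filter Topology

namespace Pool.Agent.Q167.SL

open Pool.Agent.TH41.KL (PD cosA)

lemma ev_exp (c K : ℝ) (hc : 0 < c) : ∃ n₀ : ℕ, ∀ n : ℕ, n₀ ≤ n → K ≤ Real.exp (c * n) := by
  have h : Tendsto (fun n : ℕ => Real.exp (c * n)) atTop atTop :=
    Real.tendsto_exp_atTop.comp (Tendsto.const_mul_atTop hc tendsto_natCast_atTop_atTop)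
  exact eventually_atTop.1 (h.eventually_ge_atTop K)

theorem low (hlin : S_lin) (hext : S_ext) (htv : S_tv) (hcut : S_cut) (hlp : S_mean → S_lp)
    (hmean : S_mean) (h1 : S_k1)
    (hk : ∀ η : ℝ, 0 < η → SKer η (Ph η) (sg η) (Ps η) (tt η))
    (hfam : ∀ η a ε : ℝ, 0 < η → (tt η 0).re < a → 0 ≤ a → a < 1 → 0 < ε → ∃ ε₁ : ℝ, 0 < ε₁ ∧
      ∀ ε₂ r : ℝ, 0 < ε₂ → 0 ≤ r → r < 1 → ∃ n₀ : ℕ, ∀ n : ℕ, n₀ ≤ n →
        Fam n r a (Real.exp (-(ε₁ * n))) (Real.exp (ε₂ * n)) (Real.exp (-(n * (Ph η - ε))))) :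
    S_low := by
  intro η s ε hη hs hs1 hε
  obtain ⟨-, -, -, -, -, -, -, hO, ht, hO0, hE0⟩ := h1 η hη
  set O := oS η with hOdef
  set t₀ := eS η / O with ht₀
  have hOre : (deriv (sg η) 0).re = O := by rw [hO]; simp
  have htre : (tt η 0).re = t₀ := by rw [ht]; simp
  have ht0 : 0 < t₀ := div_pos hE0 hO0
  have hs0 : 0 < s := ht0.trans hs
  -- the step
  obtain ⟨Δ, hΔ0, hΔ1, hΔ2, hΔ3⟩ : ∃ Δ : ℝ, 0 < Δ ∧ t₀ + 5 * Δ < s ∧ 2 * Δ * O ≤ 1 ∧
      2 * Δ * O * η ≤ ε / 4 := by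
    refine ⟨min ((s - t₀) / 10) (min (1 / (2 * O)) (ε / (8 * O * η))), ?_, ?_, ?_, ?_⟩
    · have : 0 < s - t₀ := by linarith
      positivity
    · have h := min_le_left ((s - t₀) / 10) (min (1 / (2 * O)) (ε / (8 * O * η)))
      linarith
    · have h := (min_le_right ((s - t₀) / 10) (min (1 / (2 * O)) (ε / (8 * O * η)))).trans
        (min_le_left _ _)
      calc _ ≤ 2 * (1 / (2 * O)) * O := by gcongr
        _ = 1 := by field_simp
    · have h := (min_le_right ((s - t₀) / 10) (min (1 / (2 * O)) (ε / (8 * O * η)))).trans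
        (min_le_right _ _)
      calc _ ≤ 2 * (ε / (8 * O * η)) * O * η := by gcongr
        _ = ε / 4 := by field_simp; norm_num
  have hκ0 : 0 < 2 * Δ * O := by positivity
  obtain ⟨ε₁, hε₁, hv⟩ := htv η (Ph η) (sg η) (Ps η) (tt η) (hk η hη) (by rw [hOre]; exact hO0)
    (2 * Δ * O) (Δ * O) (ε / 4) hκ0 hΔ2 (by positivity) (by positivity)
  obtain ⟨ε₁', hε₁', hf⟩ := hfam η (t₀ + Δ) (ε / 4) hη (by rw [htre]; linarith) (by linarith)
    (by linarith) (by positivity)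
  have hq : 0 < (t₀ + 5 * Δ) / s := by positivity
  have hq1 : (t₀ + 5 * Δ) / s < 1 := by rw [div_lt_one hs0]; exact hΔ1
  set r := √((t₀ + 5 * Δ) / s) with hr
  have hr0 : 0 < r := Real.sqrt_pos.2 hq
  have hr1 : r < 1 := by
    rw [hr, Real.sqrt_lt' one_pos]
    simpa using hq1
  have hsr : s * r ^ 2 = t₀ + 5 * Δ := by
    rw [hr, Real.sq_sqrt hq.le]
    field_simp
  set K := 1 + 2 / Δ with hK
  have hK0 : 1 ≤ K := by
    have : 0 < 2 / Δ := by positivity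
    linarith
  obtain ⟨n₁, hn₁⟩ := hv r hr0.le hr1
  obtain ⟨n₂, hn₂⟩ := hf (ε₁ / 2) r (by positivity) hr0.le hr1
  obtain ⟨n₃, hn₃⟩ := ev_exp (ε₁ / 2) (84 * K) (by positivity)
  obtain ⟨n₄, hn₄⟩ := ev_exp ε₁' 6 hε₁'
  obtain ⟨n₅, hn₅⟩ := ev_exp (ε / 2) 2 (by positivity)
  refine ⟨n₁ + n₂ + n₃ + n₄ + n₅ + 1, fun n hn g hg hpd hneg => ?_⟩
  have hn0 : 0 < n := by omega
  obtain ⟨v, vd, hd, hdc, hnear, hone, hfar, hbd⟩ := hn₁ n (by omega)
  have hF := hn₂ n (by omega)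
  have h3 := hn₃ n (by omega)
  have h4 := hn₄ n (by omega)
  have h5 := hn₅ n (by omega)
  rw [hOre, htre] at hnear hfar
  -- smallness
  have hsm : 84 * (K * Real.exp (-ε₁ * n) * Real.exp (ε₁ / 2 * n)) ≤ 1 := by
    have e1 : Real.exp (-ε₁ * n) * Real.exp (ε₁ / 2 * n) = (Real.exp (ε₁ / 2 * n))⁻¹ := by
      rw [← Real.exp_add, ← Real.exp_neg]
      congr 1
      ring
    have e2 : 84 * (K * Real.exp (-ε₁ * n) * Real.exp (ε₁ / 2 * n)) =
        84 * K * (Real.exp (ε₁ / 2 * n))⁻¹ := by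
      rw [mul_assoc K, e1]
      ring
    rw [e2, ← div_eq_mul_inv, div_le_one (Real.exp_pos _)]
    exact h3
  have hθ6 : 6 * Real.exp (-(ε₁' * n)) ≤ 1 := by
    rw [Real.exp_neg, ← div_eq_mul_inv, div_le_one (Real.exp_pos _)]
    exact h4
  obtain ⟨v', hv'c, hv'1, hv'2, hv'3⟩ := hcut hlin hext n r t₀ Δ (Real.exp (-(ε₁' * n)))
    (Real.exp (-ε₁ * n)) (Real.exp (ε₁ / 2 * n)) (Real.exp (-(n * (Ph η - ε / 4)))) _ v vd hn0
    hr0.le hr1 hΔ0 (by linarith) (by linarith) (Real.exp_pos _).le hθ6 (Real.exp_pos _).le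
    (Real.exp_pos _).le (Real.exp_pos _).le hF hd hdc
    (fun τ hτ h => hnear τ hτ (by nlinarith)) hone
    (fun τ hτ h => hfar τ hτ (by nlinarith)) hbd hsm
  have hD : Real.exp (-(n * (Ph η - ε / 4 - 2 * Δ * O * η))) +
      12 * (K * Real.exp (-ε₁ * n) * Real.exp (-(n * (Ph η - ε / 4)))) ≤
      Real.exp (-(n * (Ph η - ε))) := by
    have hnr : (0 : ℝ) < n := by exact_mod_cast hn0
    have a1 : Real.exp (-(n * (Ph η - ε / 4 - 2 * Δ * O * η))) ≤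
        Real.exp (-(n * (Ph η - ε / 2))) := by
      apply Real.exp_le_exp.2
      nlinarith
    have a2 : 12 * (K * Real.exp (-ε₁ * n)) ≤ 1 := by
      have b1 : 1 ≤ Real.exp (ε₁ / 2 * n) := Real.one_le_exp (by positivity)
      have b2 : 0 < K * Real.exp (-ε₁ * n) := by positivity
      nlinarith
    have a3 : Real.exp (-(n * (Ph η - ε / 4))) ≤ Real.exp (-(n * (Ph η - ε / 2))) := by
      apply Real.exp_le_exp.2
      nlinarith
    have a4 : 12 * (K * Real.exp (-ε₁ * n) * Real.exp (-(n * (Ph η - ε / 4)))) ≤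
        Real.exp (-(n * (Ph η - ε / 2))) := by
      calc _ = 12 * (K * Real.exp (-ε₁ * n)) * Real.exp (-(n * (Ph η - ε / 4))) := by ring
        _ ≤ 1 * Real.exp (-(n * (Ph η - ε / 4))) := by gcongr
        _ ≤ _ := by rw [one_mul]; exact a3
    have a5 : 2 * Real.exp (-(n * (Ph η - ε / 2))) ≤ Real.exp (-(n * (Ph η - ε))) := by
      calc _ ≤ Real.exp (ε / 2 * n) * Real.exp (-(n * (Ph η - ε / 2))) := by gcongr
        _ = _ := by rw [← Real.exp_add]; congr 1; ring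
    linarith
  have hlb := (hlin n r hn0 hr0.le hr1).2.2.2 _ _ _ hD hv'3
  exact hlp hmean n r s _ v' hn0 hr0 hr1 hs0 hs1 hv'c (fun τ h h' => hv'1 τ (by rw [← hsr]; exact h) h')
    hv'2 hlb g hg hpd hneg

end Pool.Agent.Q167.SL
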