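import Mathlib
import Pool.Agent.Q167.SL.Low

/-!
# Project SL2 (helper167, MP_b5f63d_co): the limit
-/

set_option autoImplicit false

open MeasureTheory Filter Topology

namespace Pool.Agent.Q167.SL

open Pool.Agent.TH41.KL (PD cosA)

/-- auxiliary functions -/
def AuxF (n : ℕ) (s : ℝ) (g : ℝ → ℝ) : Prop :=
  ContinuousOn g (Set.Icc (-1) 1) ∧ PD n g ∧ ∀ t : ℝ, -1 ≤ t → t ≤ s → g t ≤ 0

/-- the mean -/
noncomputable def mF (n : ℕ) (g : ℝ → ℝ) : ℝ :=
  (∫ u in Metric.ball (0 : EuclideanSpace ℝ (Fin n)) 1,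
      ∫ w in Metric.ball (0 : EuclideanSpace ℝ (Fin n)) 1, g (cosA u w)) /
        (volume (Metric.ball (0 : EuclideanSpace ℝ (Fin n)) 1)).toReal ^ 2

lemma cosh_sub_pos {x : ℝ} (hx : 0 < x) : 0 < x * Real.cosh x - Real.sinh x := by
  have h : StrictMonoOn (fun x : ℝ => x * Real.cosh x - Real.sinh x) (Set.Ici 0) := by
    apply strictMonoOn_of_deriv_pos (convex_Ici 0)
    · exact ((continuous_id.mul Real.continuous_cosh).sub Real.continuous_sinh).continuousOn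
    · intro y hy
      rw [interior_Ici] at hy
      have h1 : HasDerivAt (fun x : ℝ => x * Real.cosh x - Real.sinh x)
          (1 * Real.cosh y + y * Real.sinh y - Real.cosh y) y :=
        ((hasDerivAt_id y).mul (Real.hasDerivAt_cosh y)).sub (Real.hasDerivAt_sinh y)
      rw [h1.deriv]
      have : 0 < y * Real.sinh y := mul_pos hy (Real.sinh_pos_iff.2 hy)
      linarith
  have := h (Set.mem_Ici.2 le_rfl) (Set.mem_Ici.2 hx.le) hx
  simpa using this

lemma div_sinh_anti : StrictAntiOn (fun x : ℝ => x / Real.sinh x) (Set.Ioi 0) := by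
  apply strictAntiOn_of_deriv_neg (convex_Ioi 0)
  · refine continuousOn_id.div Real.continuous_sinh.continuousOn fun x hx => ?_
    exact (Real.sinh_pos_iff.2 hx).ne'
  · intro x hx
    rw [interior_Ioi] at hx
    have hs : 0 < Real.sinh x := Real.sinh_pos_iff.2 hx
    have h1 : HasDerivAt (fun x : ℝ => x / Real.sinh x)
        ((1 * Real.sinh x - x * Real.cosh x) / Real.sinh x ^ 2) x :=
      (hasDerivAt_id x).div (Real.hasDerivAt_sinh x) hs.ne'
    rw [h1.deriv]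
    apply div_neg_of_neg_of_pos _ (by positivity)
    have := cosh_sub_pos (Set.mem_Ioi.1 hx)
    linarith

lemma s0_lt_one {η : ℝ} (hη : 0 < η) (hO : 0 < oS η) (hE : 0 < eS η) : eS η / oS η < 1 := by
  rw [div_lt_one hO]
  have hterm : ∀ m : ℕ, (2 * (m : ℝ) + 2) / Real.sinh ((2 * m + 2) * η) <
      (2 * (m : ℝ) + 1) / Real.sinh ((2 * m + 1) * η) := by
    intro m
    have h1 : (0 : ℝ) < (2 * m + 1) * η := by positivity
    have h2 : (2 * (m : ℝ) + 1) * η < (2 * m + 2) * η := by nlinarith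
    have h3 := div_sinh_anti (Set.mem_Ioi.2 h1) (Set.mem_Ioi.2 (h1.trans h2)) h2
    simp only at h3
    have e1 : (2 * (m : ℝ) + 2) / Real.sinh ((2 * m + 2) * η) =
        ((2 * (m : ℝ) + 2) * η / Real.sinh ((2 * m + 2) * η)) / η := by field_simp
    have e2 : (2 * (m : ℝ) + 1) / Real.sinh ((2 * m + 1) * η) =
        ((2 * (m : ℝ) + 1) * η / Real.sinh ((2 * m + 1) * η)) / η := by field_simp
    rw [e1, e2]
    exact div_lt_div_of_pos_right h3 hη
  unfold eS oS at *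
  have hsO : Summable fun m : ℕ => (2 * (m : ℝ) + 1) / Real.sinh ((2 * m + 1) * η) := by
    by_contra h
    rw [tsum_eq_zero_of_not_summable h] at hO
    exact lt_irrefl _ hO
  have hsE : Summable fun m : ℕ => (2 * (m : ℝ) + 2) / Real.sinh ((2 * m + 2) * η) := by
    by_contra h
    rw [tsum_eq_zero_of_not_summable h] at hE
    exact lt_irrefl _ hE
  exact Summable.tsum_lt_tsum (i := 0) (fun m => (hterm m).le) (hterm 0) hsE hsO

lemma s0_anti (hlow : S_low) (hupc : S_upc) (hk7 : S_k7) (h1 : S_k1) {η η' : ℝ} (hη : 0 < η)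
    (h : η < η') : eS η' / oS η' < eS η / oS η := by
  by_contra hcon
  rw [not_lt] at hcon
  have hη' : 0 < η' := hη.trans h
  obtain ⟨-, -, -, -, -, -, -, -, -, hO', hE'⟩ := h1 η' hη'
  have hPh : Ph η' < Ph η := hk7.2 (Set.mem_Ioi.2 hη) (Set.mem_Ioi.2 hη') h
  set ε := (Ph η - Ph η') / 4 with hε
  have hε0 : 0 < ε := by
    rw [hε]
    linarith
  obtain ⟨ρ, hρ, hu⟩ := hupc η' ε hη' hε0
  have hlt := s0_lt_one hη' hO' hE'
  obtain ⟨κ, hκ1, hκ2⟩ : ∃ κ, eS η' / oS η' < κ ∧ κ < min 1 (eS η' / oS η' + ρ) :=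
    exists_between (lt_min hlt (by linarith))
  have hκ3 : κ < 1 := hκ2.trans_le (min_le_left _ _)
  have hκ4 : κ < eS η' / oS η' + ρ := hκ2.trans_le (min_le_right _ _)
  obtain ⟨n₀, hn₀⟩ := hlow η κ ε hη (hcon.trans_lt hκ1) hκ3 hε0
  obtain ⟨n, hn, hn1⟩ := ((hu κ hκ3 hκ4).and (eventually_ge_atTop (n₀ + 1))).exists
  obtain ⟨g, hg, hpd, hneg, hpos, hle⟩ := hn
  have h2 := hn₀ n (by omega) g hg hpd hneg
  rw [div_le_iff₀ hpos] at hle
  have hnr : (0 : ℝ) < n := by exact_mod_cast (by omega : 0 < n)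
  set m := (∫ u in Metric.ball (0 : EuclideanSpace ℝ (Fin n)) 1,
      ∫ w in Metric.ball (0 : EuclideanSpace ℝ (Fin n)) 1, g (cosA u w)) /
        (volume (Metric.ball (0 : EuclideanSpace ℝ (Fin n)) 1)).toReal ^ 2 with hm
  have h3 : m ≤ Real.exp (-(n * (Ph η - ε))) * (Real.exp (n * (Ph η' + ε)) * m) :=
    h2.trans (mul_le_mul_of_nonneg_left hle (Real.exp_pos _).le)
  rw [← mul_assoc, ← Real.exp_add] at h3
  have h4 : Real.exp (-(n * (Ph η - ε)) + n * (Ph η' + ε)) < 1 := by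
    rw [Real.exp_lt_one_iff]
    have : -(n * (Ph η - ε)) + n * (Ph η' + ε) = -(2 * n * ε) := by
      rw [hε]
      ring
    rw [this]
    have : 0 < 2 * n * ε := by positivity
    linarith
  nlinarith

theorem main (hlow : S_low) (hupc : S_upc) (hk7 : S_k7) (h1 : S_k1) {s η : ℝ} (hη : 0 < η)
    (hs : s * oS η = eS η) {ε : ℝ} (hε : 0 < ε) :
    ∃ δ : ℝ, 0 < δ ∧ ∀ᶠ n : ℕ in atTop,
      (∀ t : ℝ, s - δ ≤ t → ∀ g : ℝ → ℝ, AuxF n t g → 0 < mF n g →
        Real.exp (n * (Ph η - ε)) ≤ g 1 / mF n g) ∧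
      (∀ t : ℝ, t ≤ s + δ → ∃ g : ℝ → ℝ, AuxF n t g ∧ 0 < mF n g ∧
        g 1 / mF n g ≤ Real.exp (n * (Ph η + ε))) := by
  obtain ⟨-, -, -, -, -, -, -, -, -, hO, hE⟩ := h1 η hη
  have hs0 : eS η / oS η = s := by
    rw [← hs]
    field_simp
  have hslt : s < 1 := hs0 ▸ s0_lt_one hη hO hE
  -- lower bound
  obtain ⟨η', hη1, hη2⟩ : ∃ η', η < η' ∧ Ph η - ε / 2 < Ph η' := by
    have hc : ContinuousAt Ph η := hk7.1.continuousAt (Ioi_mem_nhds hη)
    have h2 : ∀ᶠ x in 𝓝[>] η, Ph η - ε / 2 < Ph x :=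
      (hc.tendsto.mono_left nhdsWithin_le_nhds).eventually (lt_mem_nhds (by linarith))
    obtain ⟨x, hx1, hx2⟩ := (h2.and self_mem_nhdsWithin).exists
    exact ⟨x, hx2, hx1⟩
  have hη'0 : 0 < η' := hη.trans hη1
  have hanti := s0_anti hlow hupc hk7 h1 hη hη1
  rw [hs0] at hanti
  obtain ⟨s₁, hs₁, hs₁'⟩ := exists_between hanti
  obtain ⟨n₀, hn₀⟩ := hlow η' s₁ (ε / 2) hη'0 hs₁ (hs₁'.trans hslt) (by positivity)
  -- upper bound
  obtain ⟨ρ, hρ, hu⟩ := hupc η ε hη hε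
  rw [hs0] at hu
  obtain ⟨s₂, hs₂, hs₂'⟩ : ∃ κ, s < κ ∧ κ < min 1 (s + ρ) :=
    exists_between (lt_min hslt (by linarith))
  refine ⟨min (s - s₁) (s₂ - s), lt_min (by linarith) (by linarith), ?_⟩
  filter_upwards [hu s₂ (hs₂'.trans_le (min_le_left _ _)) (hs₂'.trans_le (min_le_right _ _)),
    eventually_ge_atTop (n₀ + 1)] with n hn hn1
  constructor
  · intro t ht g hg hm
    have h2 := hn₀ n (by omega) g hg.1 hg.2.1 fun τ h h' => hg.2.2 τ h
      (h'.trans ((by linarith [min_le_left (s - s₁) (s₂ - s)] : s₁ ≤ s - min (s - s₁) (s₂ - s)).trans ht))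
    change mF n g ≤ _ at h2
    rw [le_div_iff₀ hm]
    have h3 : Real.exp (n * (Ph η - ε)) ≤ Real.exp (n * (Ph η' - ε / 2)) := by
      apply Real.exp_le_exp.2
      have : (0 : ℝ) ≤ n := Nat.cast_nonneg n
      nlinarith
    have h4 : Real.exp (n * (Ph η' - ε / 2)) * Real.exp (-(n * (Ph η' - ε / 2))) = 1 := by
      rw [← Real.exp_add]
      simp
    calc Real.exp (n * (Ph η - ε)) * mF n g ≤ Real.exp (n * (Ph η' - ε / 2)) * mF n g := by gcongr
      _ ≤ Real.exp (n * (Ph η' - ε / 2)) * (Real.exp (-(n * (Ph η' - ε / 2))) * g 1) := by gcongr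
      _ = g 1 := by rw [← mul_assoc, h4, one_mul]
  · intro t ht
    obtain ⟨g, hg, hpd, hneg, hpos, hle⟩ := hn
    exact ⟨g, ⟨hg, hpd, fun τ h h' => hneg τ h
      (h'.trans (ht.trans (by linarith [min_le_right (s - s₁) (s₂ - s)])))⟩, hpos, hle⟩

end Pool.Agent.Q167.SL
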