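import Mathlib
import Pool.Agent.Q167.SL.Main
import Pool.Agent.Q24.SL.PSD
import Pool.Agent.Q263.SL.Exp
import Pool.Agent.Q119.SL.Vol
import Pool.Agent.Q119.SL.Expk
import Pool.Agent.Q144.SL.Mean
import Pool.Agent.Q144.SL.Four
import Pool.Agent.Q144.SL.Ext
import Pool.Agent.Q119.SL.Lin
import Pool.Agent.Q176.SL.QBA
import Pool.Agent.Q176.SL.TA
import Pool.Agent.Q176.SL.TV
import Pool.Agent.Q91.SL.BSH
import Pool.Agent.Q91.SL.BDUAL
import Pool.Agent.Q190.SL.BSeg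
import Pool.Agent.Q225.SL.Blan
import Pool.Agent.Q24.SL.Ser
import Pool.Agent.Q24.SL.K1C
import Pool.Agent.Q24.SL.K2
import Pool.Agent.Q190.SL.K3a
import Pool.Agent.Q24.SL.K3
import Pool.Agent.Q2.SL.Kd
import Pool.Agent.Q24.SL.K5
import Pool.Agent.Q251.SL.K6B
import Pool.Agent.Q2.SL.CFa
import Pool.Agent.Q2.SL.CFb
import Pool.Agent.Q2.SL.CFc
import Pool.Agent.Q2.SL.CFd
import Pool.Agent.Q154.SL.K7
import Pool.Agent.Q154.SL.K6
import Pool.Agent.Q119.SL.Fc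
import Pool.Agent.Q190.SL.Fa
import Pool.Agent.Q154.SL.Cut

/-!
# Project SL2 (helper167, MP_b5f63d_co): the lower bound, all parts put together
-/

set_option autoImplicit false

open MeasureTheory Filter Topology

namespace Pool.Agent.Q167.SL

theorem expk' : S_expk := Pool.Agent.Q119.SL.expk (Pool.Agent.Q263.SL.exp1 Pool.Agent.Q24.SL.psd)
  Pool.Agent.Q119.SL.vol

theorem ta' : S_ta := Pool.Agent.Q176.SL.TA.ta Pool.Agent.Q176.SL.QBA.qba expk' Pool.Agent.Q91.SL.bsh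
  Pool.Agent.Q91.SL.bdual Pool.Agent.Q190.SL.bseg Pool.Agent.Q225.SL.blan

theorem tv' : S_tv := Pool.Agent.Q176.SL.TV.tv Pool.Agent.Q176.SL.QBA.qba expk' Pool.Agent.Q91.SL.bsh
  Pool.Agent.Q91.SL.bdual Pool.Agent.Q190.SL.bseg Pool.Agent.Q225.SL.blan

theorem k1' : S_k1 := Pool.Agent.Q24.SL.k1

theorem k2' : S_k2 := Pool.Agent.Q24.SL.k2

theorem k3a' : S_k3a := Pool.Agent.Q190.SL.k3a

theorem k6' (η : ℝ) (hη : 0 < η) : SKer η (Ph η) (sg η) (Ps η) (tt η) :=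
  Pool.Agent.Q154.SL.k6 k1' k2' k3a' Pool.Agent.Q251.SL.k6b Pool.Agent.Q2.SL.cf4 Pool.Agent.Q2.SL.cf3
    Pool.Agent.Q2.SL.cf1 Pool.Agent.Q2.SL.cf2 η hη

theorem k7' : S_k7 := Pool.Agent.Q154.SL.k7

theorem low' : S_low :=
  low Pool.Agent.Q119.SL.lin (Pool.Agent.Q144.SL.ext Pool.Agent.Q144.SL.four) tv' Pool.Agent.Q154.SL.cut
    Pool.Agent.Q144.SL.lp Pool.Agent.Q144.SL.mean k1' k6'
    (Pool.Agent.Q190.SL.fa Pool.Agent.Q119.SL.lin ta' expk' k6'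
      (Pool.Agent.Q24.SL.k3 k1' k3a')
      (Pool.Agent.Q119.SL.fc k1' Pool.Agent.Q2.SL.k4 Pool.Agent.Q24.SL.k5) k7'.2)

end Pool.Agent.Q167.SL
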