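import Mathlib
import Pool.Agent.Q167.SL.StmD

/-!
# Project SL2, part E (helper167, MP_b5f63d_co): numbers
-/

set_option autoImplicit false

namespace Pool.Agent.Q167.SL

/-- E-NUM.  **Numerical values for kissing numbers.**
Proof.  `exp(-η₁) = s₁ = 2654/9211`.  Numerically `eS/oS = 0.49999955`, `Ph/log 2 = 0.39660026`.
As in `TH41/SC/Num.lean` (`num_hyp`, `num_Φ`), with `eS`, `oS`, `Ph` equal to
`Pool.Agent.TH41.SC.evenSum`, `oddSum`, `Ψ` by `rfl` and `evenSum_eq`, `oddSum_eq`, `Ψ_eq`, `le_Φ`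
(`SC/Fin.lean`).  First claim: `2 ∑_k a_k ph(cc ..) < ∑_k a_k`: bound the tail of the left sum by the tail of
`a` (`ph ≤ 1`, `a_tail`) and drop the tail of the right sum, 9 terms are enough (`b_eq`).  Second claim:
`le_Φ` with 8 terms and `log_bound`; `log s₁ = -(4 log 2)/2 - log(9211/10616)`, `10616 = 4 * 2654`. -/
def S_num : Prop := eS (Real.log (9211 / 2654)) / oS (Real.log (9211 / 2654)) < 1 / 2 ∧
  3966 / 10000 * Real.log 2 < Ph (Real.log (9211 / 2654))

end Pool.Agent.Q167.SL
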